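import Pool.Agent.Helper35.WC.RowsM
import Pool.Agent.Helper75.WC.CurveM

/-! Project V7. The criterion for a cyclic extension `M / P`, where `P = Ω(x, y, z)` is the function
field of any surface: data for all the cohomology theories, and the descent. -/

set_option autoImplicit false

namespace Pool.Agent.Helper35.V7

open IntermediateField Pool.Agent.Helper75.QC Pool.Agent.Helper15.QM

/-- `M = Ω(x, y, z, w)` is a Kummer extension of `Ω(x, y, z)`, which contains `R` and is algebraic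
over `Ω(x, y)`, and the threefold `v ^ α (1 - v) ^ β = s ^ n w ^ n` is uniruled. -/
def Row3 (Ω R M : Type) [Field Ω] [Field R] [Field M] [Algebra Ω M] [Algebra R M] : Prop :=
  ∃ (n α β : ℕ) (x y z w : M), 0 < n ∧ (n : Ω) ≠ 0 ∧ (α.gcd β).Coprime n ∧
    ¬ n ∣ α ∧ ¬ n ∣ β ∧ ¬ n ∣ (α + β) ∧
    z ∈ Acl Ω {x, y} ∧
    (∀ r : R, algebraMap R M r ∈ (adjoin Ω {x, y, z} : IntermediateField Ω M)) ∧
    adjoin Ω {x, y, z, w} = ⊤ ∧
    Module.finrank (adjoin Ω {x, y, z} : IntermediateField Ω M) M = n ∧ w ≠ 0 ∧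
    w ^ n ∈ (adjoin Ω {x, y, z} : IntermediateField Ω M) ∧
    ∀ (N : Type) [Field N] [Algebra Ω N] (g : M →ₐ[Ω] N) (v s : N),
      Transcendental g.fieldRange v → v ^ α * (1 - v) ^ β = s ^ n * g w ^ n →
      Uniruled Ω (adjoin Ω {g x, g y, g z, v, s} : IntermediateField Ω N) 3

/-- the list, and the criterion over a general surface -/
def LstN (Ω R M : Type) [Field Ω] [Field R] [Field M] [Algebra Ω M] [Algebra R M] : Prop :=
  Pool.Agent.Helper75.WC.LstM Ω R M ∨ Row3 Ω R M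

/-- a smaller field in the place of `R` -/
theorem Row3.of_le {Ω R B M : Type} [Field Ω] [Field R] [Field B] [Field M] [Algebra Ω M]
    [Algebra R M] [Algebra B M] (hRB : ∀ r : R, ∃ b : B, algebraMap R M r = algebraMap B M b)
    (h : Row3 Ω B M) : Row3 Ω R M := by
  obtain ⟨n, α, β, x, y, z, w, h1, h2, h3, h4, h5, h6, h7, h8, h9⟩ := h
  refine ⟨n, α, β, x, y, z, w, h1, h2, h3, h4, h5, h6, h7, fun r => ?_, h9⟩
  obtain ⟨b, hb⟩ := hRB r
  rw [hb]
  exact h8 b

theorem LstN.of_le {Ω R B M : Type} [Field Ω] [Field R] [Field B] [Field M] [Algebra Ω M]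
    [Algebra R M] [Algebra B M] (hRB : ∀ r : R, ∃ b : B, algebraMap R M r = algebraMap B M b)
    (h : LstN Ω B M) : LstN Ω R M := by
  rcases h with h | h
  · exact Or.inl (h.of_le hRB)
  · exact Or.inr (h.of_le hRB)

/-- the case `z = x` -/
theorem Row3.of_rowDataM {Ω R M : Type} [Field Ω] [Field R] [Field M] [Algebra Ω M] [Algebra R M]
    (h : Pool.Agent.Helper35.WC.RowDataM Ω R M) : Row3 Ω R M := by
  obtain ⟨n, α, β, x, y, w, h1, h2, h3, h4, h5, h6, h7, h8, h9, h10, h11, h12⟩ := h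
  have e1 : (({x, y, x} : Set M)) = {x, y} := by
    ext a
    simp only [Set.mem_insert_iff, Set.mem_singleton_iff]
    tauto
  have e2 : (({x, y, x, w} : Set M)) = {x, y, w} := by
    ext a
    simp only [Set.mem_insert_iff, Set.mem_singleton_iff]
    tauto
  refine ⟨n, α, β, x, y, x, w, h1, h2, h3, h4, h5, h6, ?_, ?_, ?_, ?_, h10, ?_,
    fun N _ _ g v s hv hs => ?_⟩
  · exact (coe_AF (Ω := Ω) ({x, y} : Set M)) ▸ subset_AF _ (by simp)
  · rw [e1]
    exact h7
  · rw [e2]
    exact h8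
  · rw [e1]
    exact h9
  · rw [e1]
    exact h11
  · have e3 : (({g x, g y, g x, v, s} : Set N)) = {g x, g y, v, s} := by
      ext a
      simp only [Set.mem_insert_iff, Set.mem_singleton_iff]
      tauto
    rw [e3]
    exact h12 N g v s hv hs

section Base

variable {Ω L : Type} [Field Ω] [Field L]

/-- the field generated by `x`, `y`, `z` and one more element -/
theorem gen3 {K : Type} [Field K] [Algebra Ω K] (x y z r : K) :
    adjoin Ω {x, y, z, r} = adjoin Ω ((adjoin Ω {x, y, z} : Set K) ∪ {r}) := by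
  have hx : x ∈ adjoin Ω {x, y, z} := subset_adjoin _ _ (by simp)
  have hy : y ∈ adjoin Ω {x, y, z} := subset_adjoin _ _ (by simp)
  have hz : z ∈ adjoin Ω {x, y, z} := subset_adjoin _ _ (by simp)
  apply le_antisymm
  · rw [adjoin_le_iff]
    rintro s (rfl | rfl | rfl | rfl)
    · exact subset_adjoin _ _ (Or.inl hx)
    · exact subset_adjoin _ _ (Or.inl hy)
    · exact subset_adjoin _ _ (Or.inl hz)
    · exact subset_adjoin _ _ (Or.inr rfl)
  · rw [adjoin_le_iff]
    rintro s (hs | rfl)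
    · have h1 : adjoin Ω {x, y, z} ≤ adjoin Ω {x, y, z, r} := by
        rw [adjoin_le_iff]
        rintro k (rfl | rfl | rfl)
        · exact subset_adjoin _ _ (by simp)
        · exact subset_adjoin _ _ (by simp)
        · exact subset_adjoin _ _ (by simp)
      exact h1 hs
    · exact subset_adjoin _ _ (by simp)

/-- The classes with `σ ^ d t = t`, `n = d m`, come from `Ω(x, y, z, w ^ m)`. -/
theorem desc3 (T : BaseTheory Ω L) {n d m : ℕ}
    (hn : 0 < n) (hn' : (n : Ω) ≠ 0) (hdm : n = d * m) {ζ : Ω} (hζ : IsPrimitiveRoot ζ n)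
    {K : Type} [Field K] [Algebra Ω K] (x y z w : K)
    (hK : adjoin Ω {x, y, z, w} = ⊤) (hw0 : w ≠ 0) (hw : w ^ n ∈ adjoin Ω {x, y, z})
    (σ : K →ₐ[Ω] K)
    (hσ : (∀ k ∈ adjoin Ω {x, y, z}, σ k = k) ∧ σ w = algebraMap Ω K ζ * w)
    (ξ : L) (hξ : ξ ^ d = 1) (t : T.H 2 K) (ht : T.map 2 σ t = ξ • t) :
    ∃ s : T.H 2 (adjoin Ω {x, y, z, w ^ m} : IntermediateField Ω K),
      T.map 2 (adjoin Ω {x, y, z, w ^ m} : IntermediateField Ω K).val s = t := by
  have hpow : ∀ j : ℕ, (T.map 2 σ ^ j) t = ξ ^ j • t := by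
    intro j
    induction j with
    | zero => simp
    | succ j ih =>
      rw [pow_succ, Module.End.mul_apply, ht, map_smul, ih, smul_smul, pow_succ, mul_comm]
  have hK' : adjoin Ω ((adjoin Ω {x, y, z} : Set K) ∪ {w}) = ⊤ := by rw [← gen3 x y z w, hK]
  refine Gen.eigen_desc T hn hn' hdm hζ (adjoin Ω {x, y, z}) w hK' hw0 hw σ hσ _
    (gen3 x y z _) t ?_
  rw [hpow, hξ, one_smul]

/-- a power of the automorphism is the identity -/
theorem sigma_order3 {K : Type} [Field K] [Algebra Ω K] {n : ℕ} {ζ : Ω}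
    (hζ : ζ ^ n = 1) (x y z w : K) (hK : adjoin Ω {x, y, z, w} = ⊤) (σ : K →ₐ[Ω] K)
    (hσ : (∀ k ∈ adjoin Ω {x, y, z}, σ k = k) ∧ σ w = algebraMap Ω K ζ * w) : σ ^ n = 1 := by
  apply hom_ext _ hK
  intro s hs
  simp only [Set.mem_insert_iff, Set.mem_singleton_iff] at hs
  have h : ∀ k ∈ adjoin Ω {x, y, z}, (σ ^ n) k = (1 : K →ₐ[Ω] K) k := fun k hk =>
    pow_fix75 σ _ (hσ.1 k hk) n
  rcases hs with rfl | rfl | rfl | rfl
  · exact h _ (subset_adjoin _ _ (by simp))
  · exact h _ (subset_adjoin _ _ (by simp))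
  · exact h _ (subset_adjoin _ _ (by simp))
  · rw [pow_scale75 σ _ ζ hσ.2 n, ← _root_.map_pow, hζ, _root_.map_one, one_mul]
    rfl

/-- all elements are algebraic over `Ω(x, y)` -/
theorem alg3 {K : Type} [Field K] [Algebra Ω K] {n : ℕ} (hn : 0 < n) {x y z w : K}
    (hz : z ∈ Acl Ω {x, y}) (hK : adjoin Ω {x, y, z, w} = ⊤) (hw : w ^ n ∈ adjoin Ω {x, y, z})
    (k : K) : k ∈ Acl Ω {x, y} := by
  rw [← coe_AF]
  have h1 : (adjoin Ω {x, y, z} : IntermediateField Ω K) ≤ AF Ω {x, y} := by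
    rw [adjoin_le_iff]
    rintro a (rfl | rfl | rfl)
    · exact subset_AF _ (by simp)
    · exact subset_AF _ (by simp)
    · exact mem_AF.2 hz
  have h2 : (⊤ : IntermediateField Ω K) ≤ AF Ω {x, y} := by
    rw [← hK, adjoin_le_iff]
    rintro a (rfl | rfl | rfl | rfl)
    · exact subset_AF _ (by simp)
    · exact subset_AF _ (by simp)
    · exact mem_AF.2 hz
    · exact AF_root hn (h1 hw)
  exact h2 mem_top

/-- the image of the field `Ω(x, y, z)` -/
theorem img3 {K N : Type} [Field K] [Algebra Ω K] [Field N] [Algebra Ω N] (a : K →ₐ[Ω] N)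
    (x y z : K) (v s : N) :
    (adjoin Ω (a '' (adjoin Ω {x, y, z} : Set K) ∪ {v, s}) : IntermediateField Ω N) =
      adjoin Ω {a x, a y, a z, v, s} := by
  have mx : x ∈ adjoin Ω {x, y, z} := subset_adjoin _ _ (by simp)
  have my : y ∈ adjoin Ω {x, y, z} := subset_adjoin _ _ (by simp)
  have mz : z ∈ adjoin Ω {x, y, z} := subset_adjoin _ _ (by simp)
  apply le_antisymm
  · rw [adjoin_le_iff]
    rintro c (⟨k, hk, rfl⟩ | rfl | rfl)
    · have h1 : adjoin Ω {x, y, z} ≤
          (adjoin Ω {a x, a y, a z, v, s} : IntermediateField Ω N).comap a := by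
        rw [adjoin_le_iff]
        rintro c (rfl | rfl | rfl)
        · exact subset_adjoin _ _ (by simp)
        · exact subset_adjoin _ _ (by simp)
        · exact subset_adjoin _ _ (by simp)
      exact h1 hk
    · exact subset_adjoin _ _ (by simp)
    · exact subset_adjoin _ _ (by simp)
  · rw [adjoin_le_iff]
    rintro c (rfl | rfl | rfl | rfl | rfl)
    · exact subset_adjoin _ _ (Or.inl ⟨x, mx, rfl⟩)
    · exact subset_adjoin _ _ (Or.inl ⟨y, my, rfl⟩)
    · exact subset_adjoin _ _ (Or.inl ⟨z, mz, rfl⟩)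
    · exact subset_adjoin _ _ (Or.inr (by simp))
    · exact subset_adjoin _ _ (Or.inr (by simp))

end Base

end Pool.Agent.Helper35.V7
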