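import Pool.Agent.Helper35.V7.Uni
import Pool.Agent.Helper40.SD.Net

/-! Project V7: the threefolds `c(x, y) + l(x, y) q ^ 3 + m(x, y) p ^ 3 q = 0` and
`c(x, y) + l(x, y) p ^ 3 + p ^ 2 q ^ 3 = 0`, `deg c ≤ 3`, `deg l, deg m ≤ 1`. -/

set_option autoImplicit false

namespace Pool.Agent.Helper35.V7

open IntermediateField Pool.Agent.Helper75.QC Pool.Agent.Helper40.SD

/-- Coordinates in which the cubic polynomial `c` has degree two in the first variable. -/
theorem cubic_coords {Ω : Type} [Field Ω] [IsAlgClosed Ω] (c l m : MvPolynomial (Fin 2) Ω)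
    (hc : c.totalDegree ≤ 3) (hl : l.totalDegree ≤ 1) (hm : m.totalDegree ≤ 1) :
    ∃ (k0 k1 k2 k3 k4 k5 k6 k7 k8 l0 l1 l2 m0 m1 m2 : Ω), ∀ (N : Type) [Field N] [Algebra Ω N]
      (x y : N), ∃ X Y : N, x ∈ adjoin Ω {X, Y} ∧ y ∈ adjoin Ω {X, Y} ∧
      MvPolynomial.aeval ![x, y] c =
        (algebraMap Ω N k0 + algebraMap Ω N k1 * Y) * X ^ 2 +
        (algebraMap Ω N k2 + algebraMap Ω N k3 * Y + algebraMap Ω N k4 * Y ^ 2) * X +
        (algebraMap Ω N k5 + algebraMap Ω N k6 * Y + algebraMap Ω N k7 * Y ^ 2 +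
          algebraMap Ω N k8 * Y ^ 3) ∧
      MvPolynomial.aeval ![x, y] l =
        algebraMap Ω N l0 + algebraMap Ω N l1 * X + algebraMap Ω N l2 * Y ∧
      MvPolynomial.aeval ![x, y] m =
        algebraMap Ω N m0 + algebraMap Ω N m1 * X + algebraMap Ω N m2 * Y := by
  obtain ⟨C, hC⟩ : ∃ C : ℕ → ℕ → Ω, C = fun i j =>
    c.coeff (Finsupp.single 0 i + Finsupp.single 1 j) := ⟨_, rfl⟩
  have hcc : ∀ (N : Type) [Field N] [Algebra Ω N] (x y : N), MvPolynomial.aeval ![x, y] c =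
      ∑ i ∈ Finset.range (3 + 1), ∑ j ∈ Finset.range (3 + 1 - i),
        algebraMap Ω N (C i j) * x ^ i * y ^ j := by
    intro N _ _ x y
    rw [aeval_coeffs c 3 hc x y, hC]
  obtain ⟨L, hL⟩ : ∃ L : ℕ → ℕ → Ω, L = fun i j =>
    l.coeff (Finsupp.single 0 i + Finsupp.single 1 j) := ⟨_, rfl⟩
  have hll : ∀ (N : Type) [Field N] [Algebra Ω N] (x y : N), MvPolynomial.aeval ![x, y] l =
      ∑ i ∈ Finset.range (1 + 1), ∑ j ∈ Finset.range (1 + 1 - i),
        algebraMap Ω N (L i j) * x ^ i * y ^ j := by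
    intro N _ _ x y
    rw [aeval_coeffs l 1 hl x y, hL]
  obtain ⟨M, hM⟩ : ∃ M : ℕ → ℕ → Ω, M = fun i j =>
    m.coeff (Finsupp.single 0 i + Finsupp.single 1 j) := ⟨_, rfl⟩
  have hmm : ∀ (N : Type) [Field N] [Algebra Ω N] (x y : N), MvPolynomial.aeval ![x, y] m =
      ∑ i ∈ Finset.range (1 + 1), ∑ j ∈ Finset.range (1 + 1 - i),
        algebraMap Ω N (M i j) * x ^ i * y ^ j := by
    intro N _ _ x y
    rw [aeval_coeffs m 1 hm x y, hM]
  simp only [Finset.sum_range_succ, Finset.sum_range_zero, pow_zero, pow_one, mul_one, zero_add,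
    Nat.sub_zero, Nat.add_sub_cancel] at hcc hll hmm
  by_cases h03 : C 0 3 = 0
  · refine ⟨C 1 0 * 0 + C 0 2, C 1 2, C 0 1, C 1 1, C 2 1, C 0 0, C 1 0, C 2 0, C 3 0,
      L 0 0, L 0 1, L 1 0, M 0 0, M 0 1, M 1 0, fun N _ _ x y => ⟨y, x,
      subset_adjoin _ _ (by simp), subset_adjoin _ _ (by simp), ?_, ?_, ?_⟩⟩
    · rw [hcc, h03]
      simp only [map_add, map_mul, map_zero]
      ring
    · rw [hll]
    · rw [hmm]
  · obtain ⟨t, ht⟩ : ∃ t : Ω, C 3 0 + C 2 1 * t + C 1 2 * t ^ 2 + C 0 3 * t ^ 3 = 0 := by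
      obtain ⟨P, hP⟩ : ∃ P : Polynomial Ω, P = Polynomial.C (C 0 3) * Polynomial.X ^ 3 +
        Polynomial.C (C 1 2) * Polynomial.X ^ 2 + Polynomial.C (C 2 1) * Polynomial.X +
        Polynomial.C (C 3 0) := ⟨_, rfl⟩
      have hdeg : P.degree ≠ 0 := by
        rw [hP, Polynomial.degree_cubic h03]
        norm_num
      obtain ⟨t, ht⟩ := IsAlgClosed.exists_root P hdeg
      refine ⟨t, ?_⟩
      rw [Polynomial.IsRoot.def, hP] at ht
      simp only [Polynomial.eval_add, Polynomial.eval_mul, Polynomial.eval_C, Polynomial.eval_pow,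
        Polynomial.eval_X] at ht
      linear_combination ht
    refine ⟨C 2 0 + C 1 1 * t + C 0 2 * t ^ 2, C 2 1 + 2 * t * C 1 2 + 3 * t ^ 2 * C 0 3,
      C 1 0 + t * C 0 1, C 1 1 + 2 * t * C 0 2, C 1 2 + 3 * t * C 0 3, C 0 0, C 0 1, C 0 2, C 0 3,
      L 0 0, L 1 0 + t * L 0 1, L 0 1, M 0 0, M 1 0 + t * M 0 1, M 0 1, fun N _ _ x y =>
      ⟨x, y - algebraMap Ω N t * x, subset_adjoin _ _ (by simp), ?_, ?_, ?_, ?_⟩⟩
    · have h1 : y = (y - algebraMap Ω N t * x) + algebraMap Ω N t * x := by ring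
      have m1 : x ∈ adjoin Ω {x, y - algebraMap Ω N t * x} := subset_adjoin _ _ (by simp)
      have m2 : y - algebraMap Ω N t * x ∈ adjoin Ω {x, y - algebraMap Ω N t * x} :=
        subset_adjoin _ _ (by simp)
      have h2 := add_mem m2 (mul_mem (IntermediateField.algebraMap_mem
        (adjoin Ω {x, y - algebraMap Ω N t * x}) t) m1)
      rwa [← h1] at h2
    · have ht' := congrArg (algebraMap Ω N) ht
      rw [hcc]
      simp only [map_add, map_mul, map_pow, map_ofNat, map_zero] at ht' ⊢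
      linear_combination x ^ 3 * ht'
    · rw [hll]
      simp only [map_add, map_mul]
      ring
    · rw [hmm]
      simp only [map_add, map_mul]
      ring

/-- the elements `Y`, `q`, `p` -/
private theorem range_opt {Ω N : Type} [Field Ω] [Field N] [Algebra Ω N] (X Y q p : N) :
    adjoin Ω {X, Y, q, p} ≤
      adjoin Ω (Set.range (fun o : Option (Fin 2) => o.elim p ![Y, q]) ∪ {X}) := by
  rw [adjoin_le_iff]
  rintro z (rfl | rfl | rfl | rfl)
  · exact subset_adjoin _ _ (Or.inr rfl)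
  · exact subset_adjoin _ _ (Or.inl ⟨some 0, rfl⟩)
  · exact subset_adjoin _ _ (Or.inl ⟨some 1, rfl⟩)
  · exact subset_adjoin _ _ (Or.inl ⟨none, rfl⟩)

/-- **The first threefold.** -/
theorem uni_cubic_one {Ω N : Type} [Field Ω] [IsAlgClosed Ω] [Field N] [Algebra Ω N]
    (c l m : MvPolynomial (Fin 2) Ω) (hc : c.totalDegree ≤ 3) (hl : l.totalDegree ≤ 1)
    (hm : m.totalDegree ≤ 1) (x y p q : N) (hc0 : MvPolynomial.aeval ![x, y] c ≠ 0)
    (h : MvPolynomial.aeval ![x, y] c + MvPolynomial.aeval ![x, y] l * q ^ 3 +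
      MvPolynomial.aeval ![x, y] m * (p ^ 3 * q) = 0) (S : Set N)
    (hS : ∀ a ∈ S, a ∈ adjoin Ω {x, y, p, q}) :
    Uniruled Ω (adjoin Ω S : IntermediateField Ω N) 3 := by
  obtain ⟨k0, k1, k2, k3, k4, k5, k6, k7, k8, l0, l1, l2, m0, m1, m2, hk⟩ :=
    cubic_coords c l m hc hl hm
  obtain ⟨X, Y, hx, hy, ec, el, em⟩ := hk N x y
  rw [ec, el, em] at h
  rw [ec] at hc0
  have hS' : ∀ a ∈ S, a ∈ adjoin Ω
      (Set.range (fun o : Option (Fin 2) => o.elim p ![Y, q]) ∪ {X}) := by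
    intro a ha
    have h1 : adjoin Ω {x, y, p, q} ≤ adjoin Ω {X, Y, q, p} := by
      rw [adjoin_le_iff]
      have h2 : adjoin Ω {X, Y} ≤ adjoin Ω {X, Y, q, p} := adjoin.mono _ _ _ (by
        rintro z (rfl | rfl)
        · simp
        · simp)
      rintro z (rfl | rfl | rfl | rfl)
      · exact h2 hx
      · exact h2 hy
      · exact subset_adjoin _ _ (by simp)
      · exact subset_adjoin _ _ (by simp)
    exact range_opt X Y q p (h1 (hS a ha))
  have hw : ∑ i, (fun o : Option (Fin 2) => o.elim 4 ![9, 6]) i = 19 := by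
    rw [Fintype.sum_option, Fin.sum_univ_two]
    rfl
  have wY : WD (fun o : Option (Fin 2) => o.elim 4 ![9, 6]) 9
      (MvPolynomial.X (some 0) : MvPolynomial (Option (Fin 2)) Ω) := WD.X _
  have wq : WD (fun o : Option (Fin 2) => o.elim 4 ![9, 6]) 6
      (MvPolynomial.X (some 1) : MvPolynomial (Option (Fin 2)) Ω) := WD.X _
  have wp : WD (fun o : Option (Fin 2) => o.elim 4 ![9, 6]) 4
      (MvPolynomial.X none : MvPolynomial (Option (Fin 2)) Ω) := WD.X _
  obtain ⟨A, hA⟩ : ∃ A : MvPolynomial (Option (Fin 2)) Ω,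
      A = MvPolynomial.C k0 + MvPolynomial.C k1 * MvPolynomial.X (some 0) := ⟨_, rfl⟩
  obtain ⟨B, hB⟩ : ∃ B : MvPolynomial (Option (Fin 2)) Ω,
      B = MvPolynomial.C k2 + MvPolynomial.C k3 * MvPolynomial.X (some 0) +
        MvPolynomial.C k4 * MvPolynomial.X (some 0) ^ 2 +
        MvPolynomial.C l1 * MvPolynomial.X (some 1) ^ 3 +
        MvPolynomial.C m1 * (MvPolynomial.X none ^ 3 * MvPolynomial.X (some 1)) := ⟨_, rfl⟩
  obtain ⟨D, hD⟩ : ∃ D : MvPolynomial (Option (Fin 2)) Ω,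
      D = MvPolynomial.C k5 + MvPolynomial.C k6 * MvPolynomial.X (some 0) +
        MvPolynomial.C k7 * MvPolynomial.X (some 0) ^ 2 +
        MvPolynomial.C k8 * MvPolynomial.X (some 0) ^ 3 +
        (MvPolynomial.C l0 + MvPolynomial.C l2 * MvPolynomial.X (some 0)) *
          MvPolynomial.X (some 1) ^ 3 +
        (MvPolynomial.C m0 + MvPolynomial.C m2 * MvPolynomial.X (some 0)) *
          (MvPolynomial.X none ^ 3 * MvPolynomial.X (some 1)) := ⟨_, rfl⟩
  have ev : ∀ q' p' : N,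
      MvPolynomial.aeval (fun o : Option (Fin 2) => o.elim p' ![Y, q']) A =
        algebraMap Ω N k0 + algebraMap Ω N k1 * Y ∧
      MvPolynomial.aeval (fun o : Option (Fin 2) => o.elim p' ![Y, q']) B =
        algebraMap Ω N k2 + algebraMap Ω N k3 * Y + algebraMap Ω N k4 * Y ^ 2 +
        algebraMap Ω N l1 * q' ^ 3 + algebraMap Ω N m1 * (p' ^ 3 * q') ∧
      MvPolynomial.aeval (fun o : Option (Fin 2) => o.elim p' ![Y, q']) D =
        algebraMap Ω N k5 + algebraMap Ω N k6 * Y + algebraMap Ω N k7 * Y ^ 2 +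
          algebraMap Ω N k8 * Y ^ 3 + (algebraMap Ω N l0 + algebraMap Ω N l2 * Y) * q' ^ 3 +
          (algebraMap Ω N m0 + algebraMap Ω N m2 * Y) * (p' ^ 3 * q') := by
    intro q' p'
    rw [hA, hB, hD]
    simp
  have w1 : ∀ a : Ω, WD (fun o : Option (Fin 2) => o.elim 4 ![9, 6]) 0
      (MvPolynomial.C a : MvPolynomial (Option (Fin 2)) Ω) := fun a => WD.C a
  refine uni_quad3 (fun o : Option (Fin 2) => o.elim 4 ![9, 6]) (by rw [hw]; norm_num) A B D ?_ ?_
    ?_ (fun o : Option (Fin 2) => o.elim p ![Y, q]) X ?_ S hS'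
  · by_contra hcon
    push Not at hcon
    obtain ⟨a0, b0, d0⟩ := hcon
    obtain ⟨ea, eb, ed⟩ := ev 0 0
    rw [a0, map_zero] at ea
    rw [b0, map_zero] at eb
    rw [d0, map_zero] at ed
    apply hc0
    linear_combination -X ^ 2 * ea - X * eb - ed
  · rw [hw, hB]
    refine WD.add (WD.add (WD.add (WD.add ?_ ?_) ?_) ?_) ?_
    · exact (w1 k2).mono (by norm_num)
    · exact ((w1 k3).mul wY).mono (by norm_num)
    · exact ((w1 k4).mul (wY.pow 2)).mono (by norm_num)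
    · exact ((w1 l1).mul (wq.pow 3)).mono (by norm_num)
    · exact ((w1 m1).mul ((wp.pow 3).mul wq)).mono (by norm_num)
  · rw [hw, hA, hD]
    have h9 : WD (fun o : Option (Fin 2) => o.elim 4 ![9, 6]) 9
        (MvPolynomial.C k0 + MvPolynomial.C k1 * MvPolynomial.X (some 0) :
          MvPolynomial (Option (Fin 2)) Ω) :=
      WD.add ((w1 k0).mono (by norm_num)) (((w1 k1).mul wY).mono (by norm_num))
    refine WD.mono (WD.mul h9 (K' := 27) (WD.add (WD.add (WD.add (WD.add (WD.add ?_ ?_) ?_) ?_) ?_)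
      ?_)) (by norm_num)
    · exact (w1 k5).mono (by norm_num)
    · exact ((w1 k6).mul wY).mono (by norm_num)
    · exact ((w1 k7).mul (wY.pow 2)).mono (by norm_num)
    · exact ((w1 k8).mul (wY.pow 3)).mono (by norm_num)
    · exact ((WD.add ((w1 l0).mono (by norm_num : 0 ≤ 9)) (((w1 l2).mul wY).mono
        (by norm_num))).mul (wq.pow 3)).mono (by norm_num)
    · exact ((WD.add ((w1 m0).mono (by norm_num : 0 ≤ 9)) (((w1 m2).mul wY).mono
        (by norm_num))).mul ((wp.pow 3).mul wq)).mono (by norm_num)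
  · obtain ⟨ea, eb, ed⟩ := ev q p
    rw [ea, eb, ed]
    linear_combination h

/-- **The second threefold.** -/
theorem uni_cubic_two {Ω N : Type} [Field Ω] [IsAlgClosed Ω] [Field N] [Algebra Ω N]
    (c l : MvPolynomial (Fin 2) Ω) (hc : c.totalDegree ≤ 3) (hl : l.totalDegree ≤ 1)
    (x y p q : N) (hc0 : MvPolynomial.aeval ![x, y] c ≠ 0)
    (h : MvPolynomial.aeval ![x, y] c + MvPolynomial.aeval ![x, y] l * p ^ 3 +
      p ^ 2 * q ^ 3 = 0) (S : Set N)
    (hS : ∀ a ∈ S, a ∈ adjoin Ω {x, y, p, q}) :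
    Uniruled Ω (adjoin Ω S : IntermediateField Ω N) 3 := by
  obtain ⟨k0, k1, k2, k3, k4, k5, k6, k7, k8, l0, l1, l2, m0, m1, m2, hk⟩ :=
    cubic_coords c l 0 hc hl (by simp)
  obtain ⟨X, Y, hx, hy, ec, el, -⟩ := hk N x y
  rw [ec, el] at h
  rw [ec] at hc0
  have hS' : ∀ a ∈ S, a ∈ adjoin Ω
      (Set.range (fun o : Option (Fin 2) => o.elim p ![Y, q]) ∪ {X}) := by
    intro a ha
    have h1 : adjoin Ω {x, y, p, q} ≤ adjoin Ω {X, Y, q, p} := by
      rw [adjoin_le_iff]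
      have h2 : adjoin Ω {X, Y} ≤ adjoin Ω {X, Y, q, p} := adjoin.mono _ _ _ (by
        rintro z (rfl | rfl)
        · simp
        · simp)
      rintro z (rfl | rfl | rfl | rfl)
      · exact h2 hx
      · exact h2 hy
      · exact subset_adjoin _ _ (by simp)
      · exact subset_adjoin _ _ (by simp)
    exact range_opt X Y q p (h1 (hS a ha))
  have hw : ∑ i, (fun o : Option (Fin 2) => o.elim 6 ![9, 5]) i = 20 := by
    rw [Fintype.sum_option, Fin.sum_univ_two]
    rfl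
  have wY : WD (fun o : Option (Fin 2) => o.elim 6 ![9, 5]) 9
      (MvPolynomial.X (some 0) : MvPolynomial (Option (Fin 2)) Ω) := WD.X _
  have wq : WD (fun o : Option (Fin 2) => o.elim 6 ![9, 5]) 5
      (MvPolynomial.X (some 1) : MvPolynomial (Option (Fin 2)) Ω) := WD.X _
  have wp : WD (fun o : Option (Fin 2) => o.elim 6 ![9, 5]) 6
      (MvPolynomial.X none : MvPolynomial (Option (Fin 2)) Ω) := WD.X _
  obtain ⟨A, hA⟩ : ∃ A : MvPolynomial (Option (Fin 2)) Ω,
      A = MvPolynomial.C k0 + MvPolynomial.C k1 * MvPolynomial.X (some 0) := ⟨_, rfl⟩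
  obtain ⟨B, hB⟩ : ∃ B : MvPolynomial (Option (Fin 2)) Ω,
      B = MvPolynomial.C k2 + MvPolynomial.C k3 * MvPolynomial.X (some 0) +
        MvPolynomial.C k4 * MvPolynomial.X (some 0) ^ 2 +
        MvPolynomial.C l1 * MvPolynomial.X none ^ 3 := ⟨_, rfl⟩
  obtain ⟨D, hD⟩ : ∃ D : MvPolynomial (Option (Fin 2)) Ω,
      D = MvPolynomial.C k5 + MvPolynomial.C k6 * MvPolynomial.X (some 0) +
        MvPolynomial.C k7 * MvPolynomial.X (some 0) ^ 2 +
        MvPolynomial.C k8 * MvPolynomial.X (some 0) ^ 3 +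
        (MvPolynomial.C l0 + MvPolynomial.C l2 * MvPolynomial.X (some 0)) *
          MvPolynomial.X none ^ 3 +
        MvPolynomial.X none ^ 2 * MvPolynomial.X (some 1) ^ 3 := ⟨_, rfl⟩
  have ev : ∀ q' p' : N,
      MvPolynomial.aeval (fun o : Option (Fin 2) => o.elim p' ![Y, q']) A =
        algebraMap Ω N k0 + algebraMap Ω N k1 * Y ∧
      MvPolynomial.aeval (fun o : Option (Fin 2) => o.elim p' ![Y, q']) B =
        algebraMap Ω N k2 + algebraMap Ω N k3 * Y + algebraMap Ω N k4 * Y ^ 2 +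
        algebraMap Ω N l1 * p' ^ 3 ∧
      MvPolynomial.aeval (fun o : Option (Fin 2) => o.elim p' ![Y, q']) D =
        algebraMap Ω N k5 + algebraMap Ω N k6 * Y + algebraMap Ω N k7 * Y ^ 2 +
          algebraMap Ω N k8 * Y ^ 3 + (algebraMap Ω N l0 + algebraMap Ω N l2 * Y) * p' ^ 3 +
          p' ^ 2 * q' ^ 3 := by
    intro q' p'
    rw [hA, hB, hD]
    simp
  have w1 : ∀ a : Ω, WD (fun o : Option (Fin 2) => o.elim 6 ![9, 5]) 0
      (MvPolynomial.C a : MvPolynomial (Option (Fin 2)) Ω) := fun a => WD.C a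
  refine uni_quad3 (fun o : Option (Fin 2) => o.elim 6 ![9, 5]) (by rw [hw]; norm_num) A B D ?_ ?_
    ?_ (fun o : Option (Fin 2) => o.elim p ![Y, q]) X ?_ S hS'
  · by_contra hcon
    push Not at hcon
    obtain ⟨a0, b0, d0⟩ := hcon
    obtain ⟨ea, eb, ed⟩ := ev 0 0
    rw [a0, map_zero] at ea
    rw [b0, map_zero] at eb
    rw [d0, map_zero] at ed
    apply hc0
    linear_combination -X ^ 2 * ea - X * eb - ed
  · rw [hw, hB]
    refine WD.add (WD.add (WD.add ?_ ?_) ?_) ?_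
    · exact (w1 k2).mono (by norm_num)
    · exact ((w1 k3).mul wY).mono (by norm_num)
    · exact ((w1 k4).mul (wY.pow 2)).mono (by norm_num)
    · exact ((w1 l1).mul (wp.pow 3)).mono (by norm_num)
  · rw [hw, hA, hD]
    have h9 : WD (fun o : Option (Fin 2) => o.elim 6 ![9, 5]) 9
        (MvPolynomial.C k0 + MvPolynomial.C k1 * MvPolynomial.X (some 0) :
          MvPolynomial (Option (Fin 2)) Ω) :=
      WD.add ((w1 k0).mono (by norm_num)) (((w1 k1).mul wY).mono (by norm_num))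
    refine WD.mono (WD.mul h9 (K' := 27) (WD.add (WD.add (WD.add (WD.add (WD.add ?_ ?_) ?_) ?_) ?_)
      ?_)) (by norm_num)
    · exact (w1 k5).mono (by norm_num)
    · exact ((w1 k6).mul wY).mono (by norm_num)
    · exact ((w1 k7).mul (wY.pow 2)).mono (by norm_num)
    · exact ((w1 k8).mul (wY.pow 3)).mono (by norm_num)
    · exact ((WD.add ((w1 l0).mono (by norm_num : 0 ≤ 9)) (((w1 l2).mul wY).mono
        (by norm_num))).mul (wp.pow 3)).mono (by norm_num)
    · exact ((wp.pow 2).mul (wq.pow 3)).mono (by norm_num)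
  · obtain ⟨ea, eb, ed⟩ := ev q p
    rw [ea, eb, ed]
    linear_combination h

end Pool.Agent.Helper35.V7
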