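import Pool.Agent.Helper35.V7.Cubic
import Pool.Agent.Helper35.V7.Row3
import Pool.Agent.Helper75.WC.CurveSound

/-! Project V7: the cyclic covers `w ^ 9 = l ^ 2 m ^ 3 c ^ 4` and `w ^ 9 = l c ^ 5` of degree nine. -/

set_option autoImplicit false

namespace Pool.Agent.Helper35.V7

open IntermediateField MvPolynomial Pool.Agent.Helper75.QC Pool.Agent.Helper75.WC
  Pool.Agent.Helper40.SD Pool.Agent.Helper35.WC

/-- the threefold `v ^ 2 (1 - v) ^ 3 = s ^ 9 l ^ 2 m ^ 3 c ^ 4` -/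
theorem uni_cov_one {Ω N : Type} [Field Ω] [IsAlgClosed Ω] [Field N] [Algebra Ω N]
    (c l m : MvPolynomial (Fin 2) Ω) (hc : c.totalDegree ≤ 3) (hl : l.totalDegree ≤ 1)
    (hm : m.totalDegree ≤ 1) (x y v s : N) (hc0 : aeval ![x, y] c ≠ 0)
    (hl0 : aeval ![x, y] l ≠ 0) (hm0 : aeval ![x, y] m ≠ 0) (hv0 : v ≠ 0) (hv1 : 1 - v ≠ 0)
    (h : v ^ 2 * (1 - v) ^ 3 = s ^ 9 *
      (aeval ![x, y] l ^ 2 * aeval ![x, y] m ^ 3 * aeval ![x, y] c ^ 4)) :
    Uniruled Ω (adjoin Ω {x, y, v, s} : IntermediateField Ω N) 3 := by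
  obtain ⟨c', ec⟩ : ∃ c', c' = aeval ![x, y] c := ⟨_, rfl⟩
  obtain ⟨l', el⟩ : ∃ l', l' = aeval ![x, y] l := ⟨_, rfl⟩
  obtain ⟨m', em⟩ : ∃ m', m' = aeval ![x, y] m := ⟨_, rfl⟩
  rw [← ec, ← el, ← em] at h
  have hc0' : c' ≠ 0 := by
    rw [ec]
    exact hc0
  rw [← el] at hl0
  rw [← em] at hm0
  have hs0 : s ≠ 0 := by
    rintro rfl
    rw [zero_pow (by norm_num), zero_mul] at h
    exact mul_ne_zero (pow_ne_zero _ hv0) (pow_ne_zero _ hv1) h
  obtain ⟨d, hd⟩ : ∃ d, d = s ^ 3 * c' * l' * m' := ⟨_, rfl⟩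
  have hd0 : d ≠ 0 := by
    rw [hd]
    exact mul_ne_zero (mul_ne_zero (mul_ne_zero (pow_ne_zero _ hs0) hc0') hl0) hm0
  obtain ⟨q, hq⟩ : ∃ q, q = -((1 - v) * v) / d := ⟨_, rfl⟩
  have hq0 : q ≠ 0 := by
    rw [hq]
    exact div_ne_zero (neg_ne_zero.2 (mul_ne_zero hv1 hv0)) hd0
  obtain ⟨p, hp⟩ : ∃ p, p = -(s * c') / q := ⟨_, rfl⟩
  have hpq : p * q = -(s * c') := by rw [hp, div_mul_cancel₀ _ hq0]
  have hqd : q * d = -((1 - v) * v) := by
    rw [hq, div_mul_cancel₀ _ hd0]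
  -- `l q ^ 3 = -v c`
  have e1 : l' * q ^ 3 = -(v * c') := by
    have h1 : (l' * q ^ 3) * d ^ 3 = -(v * c') * d ^ 3 := by
      calc (l' * q ^ 3) * d ^ 3 = l' * (q * d) ^ 3 := by ring
        _ = -(v * l') * (v ^ 2 * (1 - v) ^ 3) := by rw [hqd]; ring
        _ = _ := by
          rw [h, hd]
          ring
    exact mul_right_cancel₀ (pow_ne_zero _ hd0) h1
  -- `m p ^ 3 q = -(1 - v) c`
  have e2 : m' * (p ^ 3 * q) = -((1 - v) * c') := by
    have h1 : (m' * (p ^ 3 * q)) * (q * d) ^ 2 = -((1 - v) * c') * (q * d) ^ 2 := by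
      calc (m' * (p ^ 3 * q)) * (q * d) ^ 2 = m' * (p * q) ^ 3 * d ^ 2 := by ring
        _ = -c' * (s ^ 9 * (l' ^ 2 * m' ^ 3 * c' ^ 4)) := by
          rw [hpq, hd]
          ring
        _ = -((1 - v) * c') * (q * d) ^ 2 := by
          rw [← h, hqd]
          ring
    exact mul_right_cancel₀ (pow_ne_zero _ (mul_ne_zero hq0 hd0)) h1
  refine uni_cubic_one c l m hc hl hm x y p q hc0 ?_ _ ?_
  · rw [← ec, ← el, ← em, e1, e2]
    ring
  · have mx : x ∈ adjoin Ω {x, y, p, q} := subset_adjoin _ _ (by simp)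
    have my : y ∈ adjoin Ω {x, y, p, q} := subset_adjoin _ _ (by simp)
    have mp : p ∈ adjoin Ω {x, y, p, q} := subset_adjoin _ _ (by simp)
    have mq : q ∈ adjoin Ω {x, y, p, q} := subset_adjoin _ _ (by simp)
    have mc : c' ∈ adjoin Ω {x, y, p, q} := by
      rw [ec]
      exact mem_valr75 c x y _ mx my
    have ml : l' ∈ adjoin Ω {x, y, p, q} := by
      rw [el]
      exact mem_valr75 l x y _ mx my
    rintro z (rfl | rfl | rfl | rfl)
    · exact mx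
    · exact my
    · have h5 : z = -(l' * q ^ 3) / c' := by
        rw [e1, neg_neg, mul_div_cancel_right₀ _ hc0']
      rw [h5]
      exact div_mem (neg_mem (mul_mem ml (pow_mem mq 3))) mc
    · have h5 : z = -(p * q) / c' := by
        rw [hpq, neg_neg, mul_div_cancel_right₀ _ hc0']
      rw [h5]
      exact div_mem (neg_mem (mul_mem mp mq)) mc

/-- the threefold `v (1 - v) ^ 3 = s ^ 9 l c ^ 5` -/
theorem uni_cov_two {Ω N : Type} [Field Ω] [IsAlgClosed Ω] [Field N] [Algebra Ω N]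
    (c l : MvPolynomial (Fin 2) Ω) (hc : c.totalDegree ≤ 3) (hl : l.totalDegree ≤ 1)
    (x y v s : N) (hc0 : aeval ![x, y] c ≠ 0) (hv0 : v ≠ 0) (hv1 : 1 - v ≠ 0)
    (h : v * (1 - v) ^ 3 = s ^ 9 * (aeval ![x, y] l * aeval ![x, y] c ^ 5)) :
    Uniruled Ω (adjoin Ω {x, y, v, s} : IntermediateField Ω N) 3 := by
  obtain ⟨c', ec⟩ : ∃ c', c' = aeval ![x, y] c := ⟨_, rfl⟩
  obtain ⟨l', el⟩ : ∃ l', l' = aeval ![x, y] l := ⟨_, rfl⟩
  rw [← ec, ← el] at h
  have hc0' : c' ≠ 0 := by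
    rw [ec]
    exact hc0
  have hs0 : s ≠ 0 := by
    rintro rfl
    rw [zero_pow (by norm_num), zero_mul] at h
    exact mul_ne_zero hv0 (pow_ne_zero _ hv1) h
  obtain ⟨p, hp⟩ : ∃ p, p = -(s ^ 3 * c' ^ 2) / (1 - v) := ⟨_, rfl⟩
  have hp0 : p ≠ 0 := by
    rw [hp]
    exact div_ne_zero (neg_ne_zero.2 (mul_ne_zero (pow_ne_zero _ hs0) (pow_ne_zero _ hc0'))) hv1
  have hp1 : p * (1 - v) = -(s ^ 3 * c' ^ 2) := by rw [hp, div_mul_cancel₀ _ hv1]
  obtain ⟨q, hq⟩ : ∃ q, q = s * c' / p := ⟨_, rfl⟩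
  have hpq : p * q = s * c' := by rw [hq, mul_div_cancel₀ _ hp0]
  -- `l p ^ 3 = -v c`
  have e1 : l' * p ^ 3 = -(v * c') := by
    have h1 : (l' * p ^ 3) * (1 - v) ^ 3 = -(v * c') * (1 - v) ^ 3 := by
      calc (l' * p ^ 3) * (1 - v) ^ 3 = l' * (p * (1 - v)) ^ 3 := by ring
        _ = -c' * (s ^ 9 * (l' * c' ^ 5)) := by rw [hp1]; ring
        _ = _ := by rw [← h]; ring
    exact mul_right_cancel₀ (pow_ne_zero _ hv1) h1
  -- `p ^ 2 q ^ 3 = -(1 - v) c`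
  have e2 : p ^ 2 * q ^ 3 = -((1 - v) * c') := by
    have h1 : (p ^ 2 * q ^ 3) * p = -((1 - v) * c') * p := by
      calc (p ^ 2 * q ^ 3) * p = (p * q) ^ 3 := by ring
        _ = -c' * (-(s ^ 3 * c' ^ 2)) := by rw [hpq]; ring
        _ = _ := by rw [← hp1]; ring
    exact mul_right_cancel₀ hp0 h1
  refine uni_cubic_two c l hc hl x y p q hc0 ?_ _ ?_
  · rw [← ec, ← el, e1, e2]
    ring
  · have mx : x ∈ adjoin Ω {x, y, p, q} := subset_adjoin _ _ (by simp)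
    have my : y ∈ adjoin Ω {x, y, p, q} := subset_adjoin _ _ (by simp)
    have mp : p ∈ adjoin Ω {x, y, p, q} := subset_adjoin _ _ (by simp)
    have mq : q ∈ adjoin Ω {x, y, p, q} := subset_adjoin _ _ (by simp)
    have mc : c' ∈ adjoin Ω {x, y, p, q} := by
      rw [ec]
      exact mem_valr75 c x y _ mx my
    have ml : l' ∈ adjoin Ω {x, y, p, q} := by
      rw [el]
      exact mem_valr75 l x y _ mx my
    rintro z (rfl | rfl | rfl | rfl)
    · exact mx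
    · exact my
    · have h5 : z = -(l' * p ^ 3) / c' := by
        rw [e1, neg_neg, mul_div_cancel_right₀ _ hc0']
      rw [h5]
      exact div_mem (neg_mem (mul_mem ml (pow_mem mp 3))) mc
    · have h5 : z = (p * q) / c' := by
        rw [hpq, mul_div_cancel_right₀ _ hc0']
      rw [h5]
      exact div_mem (mul_mem mp mq) mc

section

variable {Ω R M : Type} [Field Ω] [IsAlgClosed Ω] [Field R] [Field M] [Algebra Ω R] [Algebra Ω M]
    [Algebra R M] [IsScalarTower Ω R M] [FiniteDimensional R M] [IsGalois R M]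

omit [IsAlgClosed Ω] in
/-- The data from `x`, `y` in `R`. -/
theorem row3_of {n α β : ℕ} (hn : 1 < n) (hfin : Module.finrank R M = n)
    (hαβ : (α.gcd β).Coprime n) (hα : ¬ n ∣ α) (hβ : ¬ n ∣ β) (hαβ' : ¬ n ∣ α + β)
    {x y : R} (hR : adjoin Ω {x, y} = ⊤) {w : M} (hw : adjoin R {w} = ⊤) {a : R}
    (hwn : w ^ n = algebraMap R M a)
    (huni : ∀ (N : Type) [Field N] [Algebra Ω N] (g : R →ₐ[Ω] N) (v s : N), v ≠ 0 → 1 - v ≠ 0 →
      v ^ α * (1 - v) ^ β = s ^ n * g a →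
      Uniruled Ω (adjoin Ω {g x, g y, v, s} : IntermediateField Ω N) 3) : Row3 Ω R M := by
  have hmem : w ^ n ∈ adjoin Ω {algebraMap R M x, algebraMap R M y} := by
    rw [hwn]
    have h1 : adjoin Ω {x, y} ≤ (adjoin Ω {algebraMap R M x, algebraMap R M y}).comap
        (IsScalarTower.toAlgHom Ω R M) := by
      rw [adjoin_le_iff]
      rintro s (rfl | rfl)
      · exact subset_adjoin _ _ (by simp)
      · exact subset_adjoin _ _ (by simp)
    rw [hR] at h1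
    exact h1 (mem_top (x := a))
  obtain ⟨hn0, htop, hdeg, hcast, hw0, hle⟩ := cyc_data x y hR w hw hfin hmem
  refine Row3.of_rowDataM ⟨n, α, β, algebraMap R M x, algebraMap R M y, w, hn0, hcast, hαβ, hα, hβ,
    hαβ', hle, htop, hdeg, hw0 hn, hmem, fun N _ _ g v s hv hs => ?_⟩
  refine huni N (g.comp (IsScalarTower.toAlgHom Ω R M)) v s ?_ ?_ ?_
  · rintro rfl
    exact hv isAlgebraic_zero
  · intro h1
    have h2 : v = 1 := (sub_eq_zero.1 h1).symm
    subst h2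
    exact hv (isAlgebraic_algebraMap (1 : g.fieldRange))
  · rw [hs, ← map_pow, hwn]
    rfl

/-- **The types `2, 3 | 4, 4, 4` and `2, 3 | 4, 8`**; the rest is at infinity. -/
theorem _root_.Pool.Agent.Helper75.WC.Rep.cubicA {D : ℕ → ℕ} (H : Rep Ω R M 9 D)
    (hfin : Module.finrank R M = 9) {t : ℕ} (ht : t.Coprime 9) (u v k : ℕ → ℕ)
    (h : ∀ e < 9, D e = 0 ∨ (t * e) % 9 = (2 * u e + 3 * v e + 4 * k e) % 9)
    (hu : ∑ e ∈ Finset.range 9, u e * D e ≤ 1) (hv : ∑ e ∈ Finset.range 9, v e * D e ≤ 1)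
    (hk : ∑ e ∈ Finset.range 9, k e * D e ≤ 3) : Row3 Ω R M := by
  obtain ⟨w', h1, h2⟩ := H.twist (by norm_num) ht (fun _ => 0)
    (fun e => 2 * u e + 3 * v e + 4 * k e) (by simpa using h)
  have h3 : prodP 9 H.P (fun _ => 0) = 1 := by
    unfold prodP
    simp
  rw [h3, map_one, map_one, mul_one, prodP_add (fun e => 2 * u e + 3 * v e) (fun e => 4 * k e),
    prodP_add (fun e => 2 * u e) (fun e => 3 * v e), prodP_mul, prodP_mul, prodP_mul] at h2
  refine row3_of (α := 2) (β := 3) (by norm_num) hfin (by norm_num) (by norm_num) (by norm_num)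
    (by norm_num) H.gen h1 h2 fun N _ _ g z s hz hz1 hs => ?_
  have hev : ∀ f : MvPolynomial (Fin 2) Ω, g (aeval ![H.x, H.y] f) = aeval ![g H.x, g H.y] f :=
    fun f => map_aeval75 g H.x H.y f
  have hne : ∀ a : ℕ → ℕ, aeval ![g H.x, g H.y] (prodP 9 H.P a) ≠ 0 := by
    intro a
    rw [← hev]
    exact (map_ne_zero g).2 (prodP_ne H.ne a)
  refine uni_cov_one (prodP 9 H.P k) (prodP 9 H.P u) (prodP 9 H.P v)
    ((prodP_deg H.deg k).trans hk) ((prodP_deg H.deg u).trans hu) ((prodP_deg H.deg v).trans hv)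
    (g H.x) (g H.y) z s (hne _) (hne _) (hne _) hz hz1 ?_
  rw [hs, hev]
  simp only [map_mul, map_pow]

/-- **The type `1 | 5, 5, 5`**; the rest is at infinity. -/
theorem _root_.Pool.Agent.Helper75.WC.Rep.cubicB {D : ℕ → ℕ} (H : Rep Ω R M 9 D)
    (hfin : Module.finrank R M = 9) {t : ℕ} (ht : t.Coprime 9) (u k : ℕ → ℕ)
    (h : ∀ e < 9, D e = 0 ∨ (t * e) % 9 = (u e + 5 * k e) % 9)
    (hu : ∑ e ∈ Finset.range 9, u e * D e ≤ 1)
    (hk : ∑ e ∈ Finset.range 9, k e * D e ≤ 3) : Row3 Ω R M := by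
  obtain ⟨w', h1, h2⟩ := H.twist (by norm_num) ht (fun _ => 0)
    (fun e => 1 * u e + 5 * k e) (by simpa using h)
  have h3 : prodP 9 H.P (fun _ => 0) = 1 := by
    unfold prodP
    simp
  rw [h3, map_one, map_one, mul_one, prodP_add (fun e => 1 * u e) (fun e => 5 * k e),
    prodP_mul, prodP_mul, pow_one] at h2
  refine row3_of (α := 1) (β := 3) (by norm_num) hfin (by norm_num) (by norm_num) (by norm_num)
    (by norm_num) H.gen h1 h2 fun N _ _ g z s hz hz1 hs => ?_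
  have hev : ∀ f : MvPolynomial (Fin 2) Ω, g (aeval ![H.x, H.y] f) = aeval ![g H.x, g H.y] f :=
    fun f => map_aeval75 g H.x H.y f
  have hne : ∀ a : ℕ → ℕ, aeval ![g H.x, g H.y] (prodP 9 H.P a) ≠ 0 := by
    intro a
    rw [← hev]
    exact (map_ne_zero g).2 (prodP_ne H.ne a)
  refine uni_cov_two (prodP 9 H.P k) (prodP 9 H.P u)
    ((prodP_deg H.deg k).trans hk) ((prodP_deg H.deg u).trans hu)
    (g H.x) (g H.y) z s (hne _) hz hz1 ?_
  rw [pow_one] at hs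
  rw [hs, hev]
  simp only [map_mul, map_pow]

end

end Pool.Agent.Helper35.V7
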