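import Pool.Agent.Helper35.V7.CubicRow

/-! Project V7. The types `2, 3 | 4, 4, 4` and `2, 3 | 4, 8` of degree nine. -/

set_option autoImplicit false

namespace Pool.Agent.Helper35.V7

open IntermediateField MvPolynomial Pool.Agent.Helper75.WC

/-- **The types `2, 3 | 4, 4, 4` and `2, 3 | 4, 8`**; the line with the exponent one is at
infinity. -/
theorem _root_.Pool.Agent.Helper75.WC.Rep.step9_e8 {Ω R M : Type} [Field Ω] [IsAlgClosed Ω]
    [Field R] [Field M] [Algebra Ω R] [Algebra Ω M] [Algebra R M] [IsScalarTower Ω R M]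
    [FiniteDimensional R M] [IsGalois R M] (hfin : Module.finrank R M = 9) {D : ℕ → ℕ}
    (H : Rep Ω R M 9 D) {t e2 e3 k4 k8 : ℕ} (ht : t.Coprime 9) (h2 : e2 < 9) (h3 : e3 < 9)
    (h4 : k4 < 9) (h8 : k8 < 9) (t2 : (t * e2) % 9 = 2) (t3 : (t * e3) % 9 = 3)
    (t4 : (t * k4) % 9 = 4) (t8 : (t * k8) % 9 = 8)
    (hD : ∀ e < 9, e ≠ e2 → e ≠ e3 → e ≠ k4 → e ≠ k8 → D e = 0) (hd2 : D e2 ≤ 1)
    (hd3 : D e3 ≤ 1) (hd4 : D k4 + 2 * D k8 ≤ 3) : LstN Ω R M := by
  classical
  have n1 : e2 ≠ e3 := by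
    rintro rfl
    omega
  have n2 : e2 ≠ k4 := by
    rintro rfl
    omega
  have n3 : e2 ≠ k8 := by
    rintro rfl
    omega
  have n4 : e3 ≠ k4 := by
    rintro rfl
    omega
  have n5 : e3 ≠ k8 := by
    rintro rfl
    omega
  have n6 : k4 ≠ k8 := by
    rintro rfl
    omega
  have hsum : ∀ (k : ℕ) (_ : k < 9) (c : ℕ), ∑ e ∈ Finset.range 9,
      (if e = k then c else 0) * D e = c * D k := by
    intro k hk c
    rw [Finset.sum_eq_single k]
    · simp
    · intro b _ hb
      simp [hb]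
    · intro h
      exact absurd (Finset.mem_range.2 hk) h
  refine Or.inr (H.cubicA hfin ht (fun e => if e = e2 then 1 else 0)
    (fun e => if e = e3 then 1 else 0)
    (fun e => (if e = k4 then 1 else 0) + (if e = k8 then 2 else 0)) (fun e he => ?_) ?_ ?_ ?_)
  · by_cases a2 : e = e2
    · subst a2
      right
      simp [n1, n2, n3, t2]
    by_cases a3 : e = e3
    · subst a3
      right
      simp [n1.symm, n4, n5, t3]
    by_cases a4 : e = k4
    · subst a4
      right
      simp [n2.symm, n4.symm, n6, t4]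
    by_cases a8 : e = k8
    · subst a8
      right
      simp [n3.symm, n5.symm, n6.symm, t8]
    exact Or.inl (hD e he a2 a3 a4 a8)
  · rw [hsum e2 h2 1]
    omega
  · rw [hsum e3 h3 1]
    omega
  · simp only [add_mul, Finset.sum_add_distrib]
    rw [hsum k4 h4 1, hsum k8 h8 2]
    omega

end Pool.Agent.Helper35.V7
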