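import Pool.Agent.Helper75.WC.CurveAxis

/-! Project V7. Two lines: either they are coordinates, or they are parallel. -/

set_option autoImplicit false

namespace Pool.Agent.Helper35.V7

open IntermediateField MvPolynomial Pool.Agent.Helper75.WC

/-- **Two lines.** -/
theorem two_lines {Ω R : Type} [Field Ω] [Field R] [Algebra Ω R] {x y : R}
    (hR : adjoin Ω {x, y} = ⊤) {l m q : MvPolynomial (Fin 2) Ω} {d : ℕ} (hl : l.totalDegree ≤ 1)
    (hm : m.totalDegree ≤ 1) (hq : q.totalDegree ≤ d) :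
    (adjoin Ω {aeval ![x, y] l, aeval ![x, y] m} = ⊤ ∧ ∃ q' : MvPolynomial (Fin 2) Ω,
      q'.totalDegree ≤ d ∧
      aeval ![aeval ![x, y] l, aeval ![x, y] m] q' = aeval ![x, y] q) ∨
    ∃ (X Y : R) (q' : MvPolynomial (Fin 2) Ω) (a b a' b' : Ω), adjoin Ω {X, Y} = ⊤ ∧
      aeval ![x, y] l = algebraMap Ω R a + algebraMap Ω R b * X ∧
      aeval ![x, y] m = algebraMap Ω R a' + algebraMap Ω R b' * X ∧
      q'.totalDegree ≤ d ∧ aeval ![X, Y] q' = aeval ![x, y] q := by
  by_cases h1 : l.totalDegree ≤ 0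
  · obtain ⟨a, ha⟩ := aeval_const x y h1
    right
    by_cases h2 : m.totalDegree ≤ 0
    · obtain ⟨a', ha'⟩ := aeval_const x y h2
      exact ⟨x, y, q, a, 0, a', 0, hR, by rw [ha]; simp, by rw [ha']; simp, hq, rfl⟩
    · obtain ⟨x', y', A, B, hR', hx', hA, hB, hAx, hBy⟩ := new_axis hR hm h2
      obtain ⟨q', hq', hqe⟩ := moved_aff hA hB hAx hBy q hq
      exact ⟨x', y', q', a, 0, 0, 1, hR', by rw [ha]; simp, by rw [hx']; simp, hq', hqe⟩
  · obtain ⟨x', y', A, B, hR', hx', hA, hB, hAx, hBy⟩ := new_axis hR hl h1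
    obtain ⟨q', hq', hqe⟩ := moved_aff hA hB hAx hBy q hq
    obtain ⟨m', hm', hme⟩ := moved_aff hA hB hAx hBy m hm
    obtain ⟨α, β, γ, rfl⟩ := line_form hm'
    have e1 : aeval ![x, y] m = algebraMap Ω R α * x' + algebraMap Ω R β * y' +
        algebraMap Ω R γ := by
      rw [← hme]
      simp
    by_cases hβ : β = 0
    · right
      exact ⟨x', y', q', 0, 1, γ, α, hR', by rw [hx']; simp, by rw [e1, hβ]; simp; ring, hq', hqe⟩
    · left
      obtain ⟨L, hL⟩ : ∃ L, L = aeval ![x, y] m := ⟨_, rfl⟩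
      rw [hx', ← hL]
      have hβR : algebraMap Ω R β ≠ 0 := (map_ne_zero (algebraMap Ω R)).2 hβ
      have ey : y' = algebraMap Ω R β⁻¹ * (L - algebraMap Ω R α * x' - algebraMap Ω R γ) := by
        rw [hL, e1, map_inv₀]
        field_simp
        ring
      obtain ⟨B', hB'⟩ : ∃ B' : MvPolynomial (Fin 2) Ω,
          B' = C (-(β⁻¹ * α)) * X 0 + C β⁻¹ * X 1 + C (-(β⁻¹ * γ)) := ⟨_, rfl⟩
      have dB' : B'.totalDegree ≤ 1 := by
        rw [hB']
        refine (totalDegree_add _ _).trans (max_le ((totalDegree_add _ _).trans (max_le ?_ ?_)) ?_)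
        · refine (totalDegree_mul _ _).trans ?_
          rw [totalDegree_C, totalDegree_X]
        · refine (totalDegree_mul _ _).trans ?_
          rw [totalDegree_C, totalDegree_X]
        · rw [totalDegree_C]
          exact Nat.zero_le _
      have eB' : aeval ![x', L] B' = y' := by
        rw [hB', ey]
        simp only [map_add, map_mul, aeval_C, aeval_X, map_neg]
        change _ * x' + _ * L + _ = _
        ring
      have dX : (X 0 : MvPolynomial (Fin 2) Ω).totalDegree ≤ 1 := by rw [totalDegree_X]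
      have eX : aeval ![x', L] (X 0 : MvPolynomial (Fin 2) Ω) = x' := by
        rw [aeval_X]
        rfl
      obtain ⟨q'', hq'', hqe'⟩ := moved_aff dX dB' eX eB' q' hq'
      refine ⟨?_, q'', hq'', by rw [hqe', hqe]⟩
      rw [eq_top_iff, ← hR', adjoin_le_iff]
      have mx : x' ∈ adjoin Ω {x', L} := subset_adjoin _ _ (by simp)
      have mL : L ∈ adjoin Ω {x', L} := subset_adjoin _ _ (by simp)
      rintro s (rfl | rfl)
      · exact mx
      · rw [← eB']
        exact mem_valr75 B' x' L _ mx mL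

end Pool.Agent.Helper35.V7
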