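import Pool.Agent.Helper15.WC.Step8
import Pool.Agent.Helper35.V7.Row3

/-! Project V7. A field `B = R(r)`, `r ^ d ∈ R`, between `R` and a cyclic extension `M` of degree
`d m`, with `w ^ m ∈ B`. -/

set_option autoImplicit false

namespace Pool.Agent.Helper35.V7

open IntermediateField MvPolynomial Pool.Agent.Helper75.WC Pool.Agent.Helper40.SD

/-- **The intermediate field.** -/
theorem mid_field {Ω R M : Type} [Field Ω] [Field R] [Field M] [Algebra Ω R]
    [Algebra Ω M] [Algebra R M] [IsScalarTower Ω R M] [FiniteDimensional R M]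
    {w : M} (hw : adjoin R {w} = ⊤) {d m : ℕ} (hfin : Module.finrank R M = d * m) (hd : 0 < d)
    (hm : 0 < m) (B : IntermediateField Ω M) {r : M} {a : R} (hr : r ^ d = algebraMap R M a)
    (hR : ∀ a : R, algebraMap R M a ∈ B) (mr : r ∈ B)
    (hB : ∀ F : IntermediateField Ω M, (∀ a : R, algebraMap R M a ∈ F) → r ∈ F → B ≤ F)
    (hwr : w ^ m ∈ B) :
    Module.finrank B M = m ∧ ∀ F : IntermediateField Ω M, B ≤ F → w ∈ F → F = ⊤ := by
  refine ⟨?_, fun F hBF hwF => ?_⟩
  · let _ : Algebra R B := RingHom.toAlgebra
      ({ toFun := fun r => ⟨algebraMap R M r, hR r⟩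
         map_one' := Subtype.ext (map_one _)
         map_mul' := fun a b => Subtype.ext (map_mul _ a b)
         map_zero' := Subtype.ext (map_zero _)
         map_add' := fun a b => Subtype.ext (map_add _ a b) } : R →+* B)
    have _ : IsScalarTower R B M := IsScalarTower.of_algebraMap_eq fun r => rfl
    have hfd : FiniteDimensional B M := FiniteDimensional.right R B M
    have hfd' : FiniteDimensional R B := FiniteDimensional.left R B M
    have hmul := Module.finrank_mul_finrank R B M
    rw [hfin] at hmul
    -- `M = B(w)`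
    have hBw : adjoin B {w} = ⊤ := by
      have h1 : adjoin R {w} ≤ (adjoin B {w}).restrictScalars R := by
        rw [adjoin_le_iff]
        rintro s rfl
        exact subset_adjoin B _ rfl
      rw [hw] at h1
      rw [eq_top_iff]
      intro k _
      exact h1 (mem_top (x := k))
    have h4 : Module.finrank B M ≤ m :=
      finrank_le_of_pow hBw hm (c := ⟨w ^ m, hwr⟩) rfl
    -- `B = R(r)`
    have hBr : adjoin R {(⟨r, mr⟩ : B)} = ⊤ := by
      have h2 := hB (((adjoin R {(⟨r, mr⟩ : B)}).map (IsScalarTower.toAlgHom R B M)).restrictScalars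
        Ω) (fun a => IntermediateField.algebraMap_mem
          ((adjoin R {(⟨r, mr⟩ : B)}).map (IsScalarTower.toAlgHom R B M)) a)
        ⟨⟨r, mr⟩, subset_adjoin R _ rfl, rfl⟩
      rw [eq_top_iff]
      intro k _
      obtain ⟨b, hb, hb'⟩ := h2 k.2
      have h3 : b = k := Subtype.ext hb'
      rw [← h3]
      exact hb
    have h2 : Module.finrank R B ≤ d :=
      finrank_le_of_pow hBr hd (c := a) (Subtype.ext hr)
    have h5 : Module.finrank R B * Module.finrank B M ≤ d * Module.finrank B M :=
      Nat.mul_le_mul_right _ h2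
    rw [hmul] at h5
    exact le_antisymm h4 (Nat.le_of_mul_le_mul_left h5 hd)
  · let A : IntermediateField R M :=
      { F.toSubfield with
        algebraMap_mem' := fun a => hBF (hR a) }
    have h2 : adjoin R {w} ≤ A := by
      rw [adjoin_le_iff]
      rintro s rfl
      exact hwF
    rw [hw] at h2
    rw [eq_top_iff]
    intro k _
    exact h2 (mem_top (x := k))

/-- all of `R` -/
theorem mem_of_gens {Ω R M : Type} [Field Ω] [Field R] [Field M] [Algebra Ω R]
    [Algebra Ω M] [Algebra R M] [IsScalarTower Ω R M] {x y : R} (hR : adjoin Ω {x, y} = ⊤)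
    (F : IntermediateField Ω M) (hx : algebraMap R M x ∈ F) (hy : algebraMap R M y ∈ F) (a : R) :
    algebraMap R M a ∈ F := by
  have h3 : adjoin Ω {x, y} ≤ F.comap (IsScalarTower.toAlgHom Ω R M) := by
    rw [adjoin_le_iff]
    rintro s (rfl | rfl)
    · exact hx
    · exact hy
  rw [hR] at h3
  exact h3 (mem_top (x := a))

end Pool.Agent.Helper35.V7
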