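import Pool.Agent.Helper35.V7.Mid
import Pool.Agent.Helper35.V7.Lines
import Pool.Agent.Helper35.V7.CubicRow
import Pool.Agent.Helper40.SD.PairTwo

/-! Project V7. The cyclic covers `w ^ 9 = x p ^ 3`, `deg p ≤ 3`, and `w ^ 9 = l m ^ 4 q ^ 3`,
`deg l, deg m ≤ 1`, `deg q ≤ 2`, as cyclic covers of degree three. -/

set_option autoImplicit false

namespace Pool.Agent.Helper35.V7

open IntermediateField MvPolynomial Pool.Agent.Helper75.WC Pool.Agent.Helper40.SD

/-- the polynomial `p(x ^ 3, y)` -/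
noncomputable def cbx {Ω : Type} [Field Ω] (p : MvPolynomial (Fin 2) Ω) : MvPolynomial (Fin 2) Ω :=
  aeval ![X 0 ^ 3, X 1] p

theorem aeval_cbx {Ω A : Type} [Field Ω] [Field A] [Algebra Ω A] (r y : A)
    (p : MvPolynomial (Fin 2) Ω) : aeval ![r, y] (cbx p) = aeval ![r ^ 3, y] p := by
  have h : (aeval ![r, y]).comp (aeval ![X 0 ^ 3, X 1] : MvPolynomial (Fin 2) Ω →ₐ[Ω] _) =
      (aeval ![r ^ 3, y] : MvPolynomial (Fin 2) Ω →ₐ[Ω] A) := by
    apply algHom_ext
    intro i
    fin_cases i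
    · simp
    · simp
  exact DFunLike.congr_fun h p

/-- the weighted degree for `x` of weight one and `y` of weight three -/
theorem wd_cbx {Ω : Type} [Field Ω] {d : ℕ} {p : MvPolynomial (Fin 2) Ω}
    (h : p.totalDegree ≤ d) : WD ![1, 3] (3 * d) (cbx p) := by
  classical
  unfold cbx
  rw [aeval_def, eval₂_eq']
  refine wd_sum _ _ fun m hm => ?_
  have h0 : m 0 + m 1 ≤ d := by
    have := (le_totalDegree hm).trans h
    rwa [Finsupp.sum_fintype _ _ (fun _ => rfl), Fin.sum_univ_two] at this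
  have h1 : WD ![1, 3] (0 + (m 0 * 3 + m 1 * 3))
      ((algebraMap Ω (MvPolynomial (Fin 2) Ω)) (coeff m p) *
        ∏ i, ![X 0 ^ 3, X 1] i ^ m i) := by
    refine WD.mul (WD.C _) ?_
    rw [Fin.prod_univ_two]
    exact ((WD.X 0).pow 3 |>.pow (m 0)).mul ((WD.X 1).pow (m 1))
  refine h1.mono ?_
  omega

/-- the polynomial `x ^ 2 q(x, y ^ 3 / x)` -/
noncomputable def cay {Ω : Type} [Field Ω] (q : MvPolynomial (Fin 2) Ω) : MvPolynomial (Fin 2) Ω :=
  ∑ m ∈ q.support, C (q.coeff m) * (X 0 ^ (2 + m 0 - m 1) * X 1 ^ (3 * m 1))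

theorem aeval_cay {Ω A : Type} [Field Ω] [Field A] [Algebra Ω A] {x r : A} (hx : x ≠ 0)
    {q : MvPolynomial (Fin 2) Ω} (hq : q.totalDegree ≤ 2) :
    aeval ![x, r] (cay q) = x ^ 2 * aeval ![x, r ^ 3 / x] q := by
  classical
  have h2 : aeval ![x, r ^ 3 / x] q = ∑ m ∈ q.support, algebraMap Ω A (q.coeff m) *
      (x ^ m 0 * (r ^ 3 / x) ^ m 1) := by
    rw [aeval_def, eval₂_eq']
    refine Finset.sum_congr rfl fun m _ => ?_
    rw [Fin.prod_univ_two]
    rfl
  unfold cay
  rw [map_sum, h2, Finset.mul_sum]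
  refine Finset.sum_congr rfl fun m hm => ?_
  have h0 : m 0 + m 1 ≤ 2 := by
    have := (le_totalDegree hm).trans hq
    rwa [Finsupp.sum_fintype _ _ (fun _ => rfl), Fin.sum_univ_two] at this
  rw [map_mul, aeval_C, map_mul, map_pow, map_pow, aeval_X, aeval_X]
  change algebraMap Ω A _ * (x ^ (2 + m 0 - m 1) * r ^ (3 * m 1)) = _
  rw [div_pow, pow_mul]
  have h3 : x ^ (2 + m 0 - m 1) * x ^ m 1 = x ^ 2 * x ^ m 0 := by
    rw [← pow_add, ← pow_add]
    congr 1
    omega
  have hxm : x ^ m 1 ≠ 0 := pow_ne_zero _ hx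
  field_simp
  linear_combination algebraMap Ω A (coeff m q) * (r ^ 3) ^ m 1 * h3

theorem wd_cay {Ω : Type} [Field Ω] {q : MvPolynomial (Fin 2) Ω} (h : q.totalDegree ≤ 2) :
    WD ![3, 2] 12 (cay q) := by
  classical
  unfold cay
  refine wd_sum _ _ fun m hm => ?_
  have h0 : m 0 + m 1 ≤ 2 := by
    have := (le_totalDegree hm).trans h
    rwa [Finsupp.sum_fintype _ _ (fun _ => rfl), Fin.sum_univ_two] at this
  have h1 : WD ![3, 2] (0 + ((2 + m 0 - m 1) * 3 + (3 * m 1) * 2))
      (C (q.coeff m) * (X 0 ^ (2 + m 0 - m 1) * X 1 ^ (3 * m 1)) : MvPolynomial (Fin 2) Ω) :=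
    WD.mul (WD.C _) (((WD.X 0).pow _).mul ((WD.X 1).pow _))
  refine h1.mono ?_
  omega

/-- **Conic bundles** `v (1 - v) = κ q(x, y)`, `κ` and `z` algebraic over `Ω(x, s)`. -/
theorem uni_conic3 {Ω N : Type} [Field Ω] [Field N] [Algebra Ω N] {q : MvPolynomial (Fin 2) Ω}
    (hq : q.totalDegree ≤ 2) (x y z v s κ : N)
    (hz : z ∈ Pool.Agent.Helper75.QC.AF Ω {x, s}) (hκ : κ ∈ Pool.Agent.Helper75.QC.AF Ω {x, s})
    (h : v * (1 - v) = κ * aeval ![x, y] q) :
    Pool.Agent.Helper75.QC.Uniruled Ω (adjoin Ω {x, y, z, v, s} : IntermediateField Ω N) 3 := by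
  classical
  let E := AlgebraicClosure N
  let ι : N →ₐ[Ω] E := IsScalarTower.toAlgHom Ω N E
  set F0 : IntermediateField Ω E := Pool.Agent.Helper75.QC.AF Ω {ι x, ι s} with hF0
  have hF : ∀ a ∈ Pool.Agent.Helper75.QC.AF Ω {x, s}, ι a ∈ F0 := by
    intro a ha
    have h1 : IsAlgebraic (adjoin Ω ({x, s} : Set N)) a := Pool.Agent.Helper75.QC.mem_AF.1 ha
    apply Pool.Agent.Helper75.QC.AF_closed
    obtain ⟨P, hP, hPa⟩ := h1
    have hle : adjoin Ω ({x, s} : Set N) ≤ F0.comap ι := by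
      rw [adjoin_le_iff]
      rintro b (rfl | rfl)
      · exact Pool.Agent.Helper75.QC.subset_AF _ (by simp)
      · exact Pool.Agent.Helper75.QC.subset_AF _ (by simp)
    let j : adjoin Ω ({x, s} : Set N) →+* F0 :=
      { toFun := fun b => ⟨ι b, hle b.2⟩
        map_one' := Subtype.ext (map_one ι)
        map_mul' := fun b c => Subtype.ext (map_mul ι _ _)
        map_zero' := Subtype.ext (map_zero ι)
        map_add' := fun b c => Subtype.ext (map_add ι _ _) }
    refine ⟨P.map j, ?_, ?_⟩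
    · rw [Ne, Polynomial.map_eq_zero]
      exact hP
    · have h2 := congrArg ι hPa
      rw [Polynomial.aeval_def] at h2
      have h3 : ι (Polynomial.eval₂ (algebraMap (adjoin Ω ({x, s} : Set N)) N) a P) =
          Polynomial.eval₂ ((ι : N →+* E).comp (algebraMap (adjoin Ω ({x, s} : Set N)) N)) (ι a) P :=
        Polynomial.hom_eval₂ P _ (ι : N →+* E) a
      rw [h3, map_zero] at h2
      rw [Polynomial.aeval_def, Polynomial.eval₂_map]
      exact h2
  have hx : ι x ∈ F0 := Pool.Agent.Helper75.QC.subset_AF _ (by simp)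
  have hs : ι s ∈ F0 := Pool.Agent.Helper75.QC.subset_AF _ (by simp)
  have hcoef := aeval_coeffs (A := N) q 2 hq x y
  obtain ⟨C', hC⟩ : ∃ C' : ℕ → ℕ → Ω, C' = fun i j =>
    q.coeff (Finsupp.single 0 i + Finsupp.single 1 j) := ⟨_, rfl⟩
  have hq' : aeval ![x, y] q = ∑ i ∈ Finset.range (2 + 1), ∑ j ∈ Finset.range (2 + 1 - i),
      algebraMap Ω N (C' i j) * x ^ i * y ^ j := by
    rw [hcoef, hC]
  simp only [Finset.sum_range_succ, Finset.sum_range_zero, pow_zero, pow_one, mul_one, zero_add,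
    Nat.sub_zero, Nat.add_sub_cancel] at hq'
  rw [hq'] at h
  have mk : ι κ ∈ F0 := hF κ hκ
  have mC : ∀ i j, algebraMap Ω E (C' i j) ∈ F0 := fun i j => F0.algebraMap_mem _
  obtain ⟨θ, hθ⟩ := conic_gen F0 (-1) 0
    ⟨ι κ * (algebraMap Ω E (C' 0 0) + algebraMap Ω E (C' 1 0) * ι x +
      algebraMap Ω E (C' 2 0) * ι x ^ 2), F0.mul_mem mk (F0.add_mem (F0.add_mem (mC _ _)
        (F0.mul_mem (mC _ _) hx)) (F0.mul_mem (mC _ _) (pow_mem hx 2)))⟩
    ⟨ι κ * (algebraMap Ω E (C' 0 1) + algebraMap Ω E (C' 1 1) * ι x),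
      F0.mul_mem mk (F0.add_mem (mC _ _) (F0.mul_mem (mC _ _) hx))⟩
    ⟨ι κ * algebraMap Ω E (C' 0 2), F0.mul_mem mk (mC _ _)⟩ (ι y) (ι v) (by
      have h2 := congrArg ι h
      simp only [map_mul, map_sub, map_one, map_add, map_pow, AlgHom.commutes] at h2
      push_cast
      linear_combination -h2)
  refine ⟨E, inferInstance, inferInstance, ι.comp (adjoin Ω {x, y, z, v, s}).val, {ι x, ι s}, θ,
    (Finset.card_insert_le _ _).trans_lt (by simp), fun k => ?_⟩
  have hle : F0 ≤ adjoin Ω (Pool.Agent.Helper75.QC.Acl Ω (({ι x, ι s} : Finset E) : Set E) ∪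
      {θ}) := by
    intro a ha
    refine subset_adjoin _ _ (Or.inl ?_)
    have h1 := Pool.Agent.Helper75.QC.mem_AF.1 ha
    simpa using h1
  obtain ⟨h1, h2⟩ := hθ _ hle (subset_adjoin _ _ (Or.inr rfl))
  have h3 : adjoin Ω {x, y, z, v, s} ≤ (adjoin Ω (Pool.Agent.Helper75.QC.Acl Ω
      (({ι x, ι s} : Finset E) : Set E) ∪ {θ})).comap ι := by
    rw [adjoin_le_iff]
    rintro a (rfl | rfl | rfl | rfl | rfl)
    · exact hle hx
    · exact h1
    · exact hle (hF _ hz)
    · exact h2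
    · exact hle hs
  exact h3 k.2

section

variable {Ω R M : Type} [Field Ω] [IsAlgClosed Ω] [Field R] [Field M] [Algebra Ω R]
    [Algebra Ω M] [Algebra R M] [IsScalarTower Ω R M] [FiniteDimensional R M]

/-- **The type `1 | 3, 3, 3`**; the rest is at infinity. -/
theorem _root_.Pool.Agent.Helper75.WC.Rep.step9_i {D : ℕ → ℕ} (H : Rep Ω R M 9 D)
    (hfin : Module.finrank R M = 9)
    {t e1 k1 : ℕ} (ht : t.Coprime 9) (he1 : e1 < 9) (hk1 : k1 < 9) (h1 : (t * e1) % 9 = 1)
    (h2 : (t * k1) % 9 = 3) (hD : ∀ e < 9, e ≠ e1 → e ≠ k1 → D e = 0) (hd1 : D e1 ≤ 1)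
    (hd2 : D k1 ≤ 3) : LstM Ω R M := by
  classical
  have hn1 : e1 ≠ k1 := by
    rintro rfl
    omega
  obtain ⟨H', hax⟩ := H.axis hd1
  obtain ⟨w, hw, hw9⟩ := H'.twist (by norm_num) ht (fun _ => 0)
    (fun e => (if e = e1 then 1 else 0) + 3 * (if e = k1 then 1 else 0)) (fun e he => by
    by_cases e_1 : e = e1
    · subst e_1
      right
      simp [hn1, h1]
    by_cases e_2 : e = k1
    · subst e_2
      right
      simp [hn1.symm, h2]
    · exact Or.inl (hD e he e_1 e_2))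
  have h0 : prodP 9 H'.P (fun _ => 0) = 1 := by
    unfold prodP
    simp
  have hsingle : ∀ k < 9, prodP 9 H'.P (fun e => if e = k then 1 else 0) = H'.P k := by
    intro k hk
    unfold prodP
    rw [Finset.prod_eq_single k]
    · simp
    · intro b _ hb
      simp [hb]
    · intro h
      exact absurd (Finset.mem_range.2 hk) h
  rw [h0, map_one, map_one, mul_one, prodP_add (fun e => if e = e1 then 1 else 0)
    (fun e => 3 * (if e = k1 then 1 else 0)), prodP_mul, hsingle e1 he1, hsingle k1 hk1,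
    map_mul, map_pow] at hw9
  obtain ⟨p, hp⟩ : ∃ p, p = H'.P k1 := ⟨_, rfl⟩
  obtain ⟨p', hp'⟩ : ∃ p', p' = algebraMap R M (aeval ![H'.x, H'.y] p) := ⟨_, rfl⟩
  have hp0 : p' ≠ 0 := by
    rw [hp', hp]
    exact (map_ne_zero (algebraMap R M)).2 (H'.ne k1)
  rw [← hp] at hw9
  rcases hax with hax | hax
  swap
  · exfalso
    obtain ⟨c, hc⟩ := aeval_const H'.x H'.y hax
    obtain ⟨g, hg⟩ := IsAlgClosed.exists_pow_nat_eq c (n := 3) (by norm_num)
    have hg0 : (algebraMap Ω M g * p') ≠ 0 := by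
      refine mul_ne_zero ?_ hp0
      intro h
      have h4 := H'.ne e1
      rw [hc, ← hg, map_pow] at h4
      apply h4
      have h5 : algebraMap Ω M g = algebraMap R M (algebraMap Ω R g) :=
        IsScalarTower.algebraMap_apply Ω R M g
      rw [h5] at h
      rw [(map_eq_zero (algebraMap R M)).1 h]
      norm_num
    obtain ⟨ξ, hξ⟩ : ∃ ξ : Ω, w ^ 3 / (algebraMap Ω M g * p') = algebraMap Ω M ξ := by
      have h3 : (w ^ 3 / (algebraMap Ω M g * p')) ^ 3 = 1 := by
        have e1 : (algebraMap Ω M g * p') ^ 3 = w ^ 9 := by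
          rw [hw9, hc, ← hg, hp', mul_pow, map_mul, map_pow, map_pow, map_pow,
            ← IsScalarTower.algebraMap_apply Ω R M g]
        rw [div_pow, e1, ← pow_mul, div_self]
        rw [← e1]
        exact pow_ne_zero _ hg0
      have h5 : IsIntegral Ω (w ^ 3 / (algebraMap Ω M g * p')) := by
        refine ⟨Polynomial.X ^ 3 - Polynomial.C 1, Polynomial.monic_X_pow_sub_C _ (by norm_num), ?_⟩
        simp [h3]
      have h6 : Algebra.IsIntegral Ω Ω⟮w ^ 3 / (algebraMap Ω M g * p')⟯ := by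
        have := IntermediateField.isAlgebraic_adjoin_simple h5
        exact Algebra.IsAlgebraic.isIntegral
      obtain ⟨ζ, hζ⟩ := (IsAlgClosed.algebraMap_bijective_of_isIntegral
        (k := Ω) (K := Ω⟮w ^ 3 / (algebraMap Ω M g * p')⟯)).2
          ⟨_, IntermediateField.mem_adjoin_simple_self Ω _⟩
      exact ⟨ζ, (congrArg Subtype.val hζ).symm⟩
    have h7 : w ^ 3 = algebraMap R M (algebraMap Ω R ξ * (algebraMap Ω R g *
        aeval ![H'.x, H'.y] p)) := by
      rw [map_mul, map_mul, ← IsScalarTower.algebraMap_apply Ω R M ξ,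
        ← IsScalarTower.algebraMap_apply Ω R M g, ← hp', ← hξ, div_mul_cancel₀ _ hg0]
    have h6 : Module.finrank R M ≤ 3 := finrank_le_of_pow hw (by norm_num) h7
    omega
  · have hx : aeval ![H'.x, H'.y] (H'.P e1) = H'.x := by
      rw [hax, aeval_X]
      rfl
    have hx0 := H'.ne e1
    rw [hx] at hw9 hx0
    obtain ⟨r, hr⟩ : ∃ r, r = w ^ 3 / p' := ⟨_, rfl⟩
    have hw3 : w ^ 3 = r * p' := by rw [hr, div_mul_cancel₀ _ hp0]
    have hr3 : r ^ 3 = algebraMap R M H'.x := by
      rw [hr, div_pow, ← pow_mul, hw9, map_mul, map_pow, ← hp',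
        mul_div_cancel_right₀ _ (pow_ne_zero _ hp0)]
    have mr : r ∈ adjoin Ω {r, algebraMap R M H'.y} := subset_adjoin _ _ (by simp)
    have my : algebraMap R M H'.y ∈ adjoin Ω {r, algebraMap R M H'.y} :=
      subset_adjoin _ _ (by simp)
    have hRM : ∀ a : R, algebraMap R M a ∈ adjoin Ω {r, algebraMap R M H'.y} := by
      refine mem_of_gens H'.gen _ ?_ my
      rw [← hr3]
      exact pow_mem mr 3
    obtain ⟨hdeg, hgen⟩ := mid_field (Ω := Ω) hw (d := 3) (m := 3) hfin (by norm_num) (by norm_num)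
      (adjoin Ω {r, algebraMap R M H'.y}) hr3 hRM mr (fun F h3 h4 => by
        rw [adjoin_le_iff]
        rintro s (rfl | rfl)
        · exact h4
        · exact h3 _) (by
        rw [hw3]
        refine mul_mem mr ?_
        rw [hp']
        exact hRM _)
    refine ⟨r, algebraMap R M H'.y, w, hRM, hgen _ (adjoin.mono _ _ _ (by
      rintro s (rfl | rfl)
      · simp
      · simp)) (subset_adjoin _ _ (by simp)), Or.inl ?_⟩
    rw [hdeg]
    refine ⟨1, 3, 2, 2, 1, X 0 * cbx p, 1, by norm_num, Or.inl (by norm_num),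
      degLE_wd (K := 1 + 3 * 3) ((WD.X 0).mul (wd_cbx ?_)) (by norm_num),
      Or.inl ⟨Or.inl rfl, degLE_wd (K := 0) ?_ (by norm_num), ?_, ?_⟩⟩
    · rw [hp]
      exact (H'.deg k1).trans hd2
    · rw [← C_1]
      exact WD.C 1
    · rw [map_one]
      exact one_ne_zero
    · rw [map_one, one_pow, mul_one, map_mul, aeval_cbx, hr3, aeval_map75, ← hp', aeval_X, hw3]
      rfl

/-- **The type `1, 4 | 3, 3`**; the rest is at infinity. -/
theorem _root_.Pool.Agent.Helper75.WC.Rep.step9_ii [IsGalois R M] {D : ℕ → ℕ}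
    (H : Rep Ω R M 9 D) (hfin : Module.finrank R M = 9)
    {t e1 e4 k1 : ℕ} (ht : t.Coprime 9) (he1 : e1 < 9) (he4 : e4 < 9) (hk1 : k1 < 9)
    (h1 : (t * e1) % 9 = 1) (h4 : (t * e4) % 9 = 4) (h2 : (t * k1) % 9 = 3)
    (hD : ∀ e < 9, e ≠ e1 → e ≠ e4 → e ≠ k1 → D e = 0) (hd1 : D e1 ≤ 1) (hd4 : D e4 ≤ 1)
    (hd2 : D k1 ≤ 2) : LstN Ω R M := by
  classical
  have hn1 : e1 ≠ k1 := by
    rintro rfl
    omega
  have hn2 : e4 ≠ k1 := by
    rintro rfl
    omega
  have hn3 : e1 ≠ e4 := by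
    rintro rfl
    omega
  obtain ⟨w, hw, hw9⟩ := H.twist (by norm_num) ht (fun _ => 0)
    (fun e => ((if e = e1 then 1 else 0) + 4 * (if e = e4 then 1 else 0)) +
      3 * (if e = k1 then 1 else 0)) (fun e he => by
    by_cases e_1 : e = e1
    · subst e_1
      right
      simp [hn1, hn3, h1]
    by_cases e_3 : e = e4
    · subst e_3
      right
      simp [hn2, hn3.symm, h4]
    by_cases e_2 : e = k1
    · subst e_2
      right
      simp [hn1.symm, hn2.symm, h2]
    · exact Or.inl (hD e he e_1 e_3 e_2))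
  have h0 : prodP 9 H.P (fun _ => 0) = 1 := by
    unfold prodP
    simp
  have hsingle : ∀ k < 9, prodP 9 H.P (fun e => if e = k then 1 else 0) = H.P k := by
    intro k hk
    unfold prodP
    rw [Finset.prod_eq_single k]
    · simp
    · intro b _ hb
      simp [hb]
    · intro h
      exact absurd (Finset.mem_range.2 hk) h
  rw [h0, map_one, map_one, mul_one,
    prodP_add (fun e => (if e = e1 then 1 else 0) + 4 * (if e = e4 then 1 else 0))
      (fun e => 3 * (if e = k1 then 1 else 0)),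
    prodP_add (fun e => if e = e1 then 1 else 0) (fun e => 4 * (if e = e4 then 1 else 0)),
    prodP_mul, prodP_mul, hsingle e1 he1, hsingle e4 he4, hsingle k1 hk1] at hw9
  simp only [map_mul, map_pow] at hw9
  obtain ⟨l, hl⟩ : ∃ l, l = aeval ![H.x, H.y] (H.P e1) := ⟨_, rfl⟩
  obtain ⟨m, hm⟩ : ∃ m, m = aeval ![H.x, H.y] (H.P e4) := ⟨_, rfl⟩
  obtain ⟨q, hq⟩ : ∃ q, q = aeval ![H.x, H.y] (H.P k1) := ⟨_, rfl⟩
  rw [← hl, ← hm, ← hq] at hw9
  have hl0 : algebraMap R M l ≠ 0 := by
    rw [hl]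
    exact (map_ne_zero (algebraMap R M)).2 (H.ne e1)
  have hm0 : algebraMap R M m ≠ 0 := by
    rw [hm]
    exact (map_ne_zero (algebraMap R M)).2 (H.ne e4)
  have hq0 : algebraMap R M q ≠ 0 := by
    rw [hq]
    exact (map_ne_zero (algebraMap R M)).2 (H.ne k1)
  have hmq : algebraMap R M m * algebraMap R M q ≠ 0 := mul_ne_zero hm0 hq0
  obtain ⟨r, hr⟩ : ∃ r, r = w ^ 3 / (algebraMap R M m * algebraMap R M q) := ⟨_, rfl⟩
  have hw3 : w ^ 3 = r * (algebraMap R M m * algebraMap R M q) := by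
    rw [hr, div_mul_cancel₀ _ hmq]
  have hr3 : r ^ 3 = algebraMap R M (l * m) := by
    rw [hr, div_pow, ← pow_mul, hw9, map_mul, div_eq_iff (pow_ne_zero _ hmq)]
    ring
  have hr0 : r ≠ 0 := by
    rintro rfl
    rw [zero_pow (by norm_num), map_mul] at hr3
    exact mul_ne_zero hl0 hm0 hr3.symm
  have hw0 : w ≠ 0 := by
    rintro rfl
    rw [zero_pow (by norm_num)] at hw9
    exact mul_ne_zero (mul_ne_zero hl0 (pow_ne_zero _ hm0)) (pow_ne_zero _ hq0) hw9.symm
  rcases two_lines H.gen (l := H.P e1) (m := H.P e4) (q := H.P k1) (d := 2)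
    ((H.deg e1).trans hd1) ((H.deg e4).trans hd4) ((H.deg k1).trans hd2) with
    ⟨hgen, q', hq', hqe⟩ | ⟨X, Y, q', a, b, a', b', hgen, hX, hX', hq', hqe⟩
  · -- the lines are coordinates
    left
    rw [← hl, ← hm] at hgen
    rw [← hl, ← hm, ← hq] at hqe
    have mx : algebraMap R M l ∈ adjoin Ω {algebraMap R M l, r} := subset_adjoin _ _ (by simp)
    have mr : r ∈ adjoin Ω {algebraMap R M l, r} := subset_adjoin _ _ (by simp)
    have hm3 : algebraMap R M m = r ^ 3 / algebraMap R M l := by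
      rw [hr3, map_mul, mul_div_cancel_left₀ _ hl0]
    have my : algebraMap R M m ∈ adjoin Ω {algebraMap R M l, r} := by
      rw [hm3]
      exact div_mem (pow_mem mr 3) mx
    have hRM : ∀ a : R, algebraMap R M a ∈ adjoin Ω {algebraMap R M l, r} :=
      mem_of_gens hgen _ mx my
    obtain ⟨hdeg, htop⟩ := mid_field (Ω := Ω) hw (d := 3) (m := 3) hfin (by norm_num) (by norm_num)
      (adjoin Ω {algebraMap R M l, r}) hr3 hRM mr (fun F h3 h4 => by
        rw [adjoin_le_iff]
        rintro s (rfl | rfl)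
        · exact h3 _
        · exact h4) (by
        rw [hw3]
        exact mul_mem mr (mul_mem (hRM _) (hRM _)))
    obtain ⟨w', hw'⟩ : ∃ w', w' = w * algebraMap R M l / r := ⟨_, rfl⟩
    refine ⟨algebraMap R M l, r, w', hRM, htop _ (adjoin.mono _ _ _ (by
      rintro s (rfl | rfl)
      · simp
      · simp)) ?_, Or.inl ?_⟩
    · have m1 : algebraMap R M l ∈ adjoin Ω {algebraMap R M l, r, w'} :=
        subset_adjoin _ _ (by simp)
      have m2 : r ∈ adjoin Ω {algebraMap R M l, r, w'} := subset_adjoin _ _ (by simp)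
      have m3 : w' ∈ adjoin Ω {algebraMap R M l, r, w'} := subset_adjoin _ _ (by simp)
      have h5 : w = w' * r / algebraMap R M l := by
        rw [hw', div_mul_cancel₀ _ hr0, mul_div_cancel_right₀ _ hl0]
      rw [h5]
      exact div_mem (mul_mem m3 m2) m1
    · rw [hdeg]
      refine ⟨3, 2, 5, 2, 1, X 1 * cay q', 1, by norm_num, Or.inl (by norm_num),
        degLE_wd (K := 2 + 12) ((WD.X 1).mul (wd_cay hq')) (by norm_num),
        Or.inl ⟨Or.inl rfl, degLE_wd (K := 0) ?_ (by norm_num), ?_, ?_⟩⟩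
      · rw [← C_1]
        exact WD.C 1
      · rw [map_one]
        exact one_ne_zero
      · rw [map_one, one_pow, mul_one, map_mul, aeval_cay hl0 hq', ← hm3, aeval_map75, hqe,
          aeval_X]
        change w' ^ 3 = r * _
        rw [hw', div_pow, mul_pow, hw3, hm3]
        field_simp
  · -- the lines are parallel
    right
    rw [← hl] at hX
    rw [← hm] at hX'
    rw [← hq] at hqe
    have mx : algebraMap R M X ∈ adjoin Ω {algebraMap R M X, algebraMap R M Y, r} :=
      subset_adjoin _ _ (by simp)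
    have my : algebraMap R M Y ∈ adjoin Ω {algebraMap R M X, algebraMap R M Y, r} :=
      subset_adjoin _ _ (by simp)
    have mr : r ∈ adjoin Ω {algebraMap R M X, algebraMap R M Y, r} :=
      subset_adjoin _ _ (by simp)
    have hRM : ∀ a : R, algebraMap R M a ∈
        adjoin Ω {algebraMap R M X, algebraMap R M Y, r} := mem_of_gens hgen _ mx my
    obtain ⟨hdeg, htop⟩ := mid_field (Ω := Ω) hw (d := 3) (m := 3) hfin (by norm_num) (by norm_num)
      (adjoin Ω {algebraMap R M X, algebraMap R M Y, r}) hr3 hRM mr (fun F h3 h4 => by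
        rw [adjoin_le_iff]
        rintro s (rfl | rfl | rfl)
        · exact h3 _
        · exact h3 _
        · exact h4) (by
        rw [hw3]
        exact mul_mem mr (mul_mem (hRM _) (hRM _)))
    obtain ⟨-, -, -, hcast, -, -⟩ := cyc_data H.x H.y H.gen w hw hfin (by
      rw [hw9]
      have h5 := mem_of_gens (M := M) H.gen (adjoin Ω {algebraMap R M H.x, algebraMap R M H.y})
        (subset_adjoin _ _ (by simp)) (subset_adjoin _ _ (by simp))
      exact mul_mem (mul_mem (h5 _) (pow_mem (h5 _) 4)) (pow_mem (h5 _) 3))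
    have h3 : ((3 : ℕ) : Ω) ≠ 0 := by
      intro h
      apply hcast
      have : ((9 : ℕ) : Ω) = ((3 : ℕ) : Ω) * ((3 : ℕ) : Ω) := by norm_num
      rw [this, h, zero_mul]
    refine ⟨3, 1, 1, algebraMap R M X, algebraMap R M Y, r, w, by norm_num, h3, by norm_num,
      by norm_num, by norm_num, by norm_num, ?_, hRM, htop _ (adjoin.mono _ _ _ (by
        rintro s (rfl | rfl | rfl)
        · simp
        · simp
        · simp)) (subset_adjoin _ _ (by simp)), hdeg, hw0, ?_, fun N _ _ g v s hv hs => ?_⟩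
    · rw [← Pool.Agent.Helper75.QC.mem_AF]
      apply Pool.Agent.Helper75.QC.AF_root (n := 3) (by norm_num)
      rw [hr3]
      have h5 := mem_of_gens (M := M) hgen
        (Pool.Agent.Helper75.QC.AF Ω {algebraMap R M X, algebraMap R M Y})
        (Pool.Agent.Helper75.QC.subset_AF _ (by simp))
        (Pool.Agent.Helper75.QC.subset_AF _ (by simp))
      exact h5 _
    · rw [hw3]
      exact mul_mem mr (mul_mem (hRM _) (hRM _))
    · obtain ⟨g', hg'⟩ : ∃ g' : R →ₐ[Ω] N, g' = g.comp (IsScalarTower.toAlgHom Ω R M) := ⟨_, rfl⟩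
      have hgx : ∀ c : R, g (algebraMap R M c) = g' c := fun c => by
        rw [hg']
        rfl
      have hlin : ∀ c d : Ω, g' (algebraMap Ω R c + algebraMap Ω R d * X) ∈
          Pool.Agent.Helper75.QC.AF Ω {g' X, s} := by
        intro c d
        rw [map_add, map_mul, AlgHom.commutes, AlgHom.commutes]
        exact add_mem (IntermediateField.algebraMap_mem _ _) (mul_mem
          (IntermediateField.algebraMap_mem _ _)
          (Pool.Agent.Helper75.QC.subset_AF _ (by simp)))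
      have hr' : g r ∈ Pool.Agent.Helper75.QC.AF Ω {g' X, s} := by
        apply Pool.Agent.Helper75.QC.AF_root (n := 3) (by norm_num)
        rw [← map_pow, hr3, map_mul, map_mul, hgx, hgx, hX, hX']
        exact mul_mem (hlin _ _) (hlin _ _)
      rw [hgx, hgx]
      refine uni_conic3 hq' (g' X) (g' Y) (g r) v s (s ^ 3 * (g r * g' m)) hr' ?_ ?_
      · refine mul_mem (pow_mem (Pool.Agent.Helper75.QC.subset_AF _ (by simp)) 3)
          (mul_mem hr' ?_)
        rw [hX']
        exact hlin _ _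
      · rw [pow_one, pow_one] at hs
        rw [hs, ← map_pow, hw3, map_mul, map_mul, hgx, hgx, ← hqe,
          Pool.Agent.Helper75.QC.map_aeval75]
        ring

end

end Pool.Agent.Helper35.V7
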