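import Pool.Agent.Helper35.V7.Row3
import Pool.Agent.Helper35.WC.ListedM

/-! Project V7: the criterion over any surface for the Galois action, and abelian extensions. -/

set_option autoImplicit false

namespace Pool.Agent.Helper35.V7

open IntermediateField Pool.Agent.Helper75.QC Pool.Agent.Helper35.TD Pool.Agent.Helper35.WC

/-- **The criterion** over `Ω(x, y, z)`. -/
theorem tame3 {F Ω L : Type} [Field F] [Field Ω] [Algebra F Ω] [Algebra.IsAlgebraic F Ω]
    [IsAlgClosed Ω] [Field L] [CharZero L] [IsAlgClosed L] (T : GaloisTheory F Ω L) {n : ℕ}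
    (α β : ℕ) (hαβ : (α.gcd β).Coprime n) (hn : 0 < n) (hn' : (n : Ω) ≠ 0) {K : Type} [Field K]
    [Algebra Ω K] (x y z w : K) (hz : z ∈ Acl Ω {x, y})
    (hK : adjoin Ω {x, y, z, w} = ⊤) (hw0 : w ≠ 0) (hw : w ^ n ∈ adjoin Ω {x, y, z})
    (hdeg : Module.finrank (adjoin Ω {x, y, z}) K = n)
    (huni : ∀ (N : Type) [Field N] [Algebra Ω N] (g : K →ₐ[Ω] N) (v s : N),
      Transcendental g.fieldRange v → v ^ α * (1 - v) ^ β = s ^ n * g w ^ n →
      Uniruled Ω (adjoin Ω {g x, g y, g z, v, s} : IntermediateField Ω N) 3)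
    (hD : ∀ ξ : L, ξ ^ n = 1 → (ξ ^ α = 1 ∨ ξ ^ β = 1 ∨ ξ ^ (α + β) = 1) → ∃ d m : ℕ,
      n = d * m ∧ ξ ^ d = 1 ∧ NoTate T (adjoin Ω {x, y, z, w ^ m} : IntermediateField Ω K)) :
    NoTate T K := by
  classical
  intro U₀ hU₀ γ hγ₀ t ht₀
  by_contra h0
  obtain ⟨U, hUU, hU, hfix⟩ := fixed_open_set {a : K | ∀ τ ∈ U₀, γ τ a = a} U₀ hU₀ γ hγ₀.1
    (fun τ hτ s hs => hs τ hτ) {x, y, z, w} (fun k _ => by
      rw [hγ₀.2]; exact mem_top)
  simp only [Finset.mem_insert, Finset.mem_singleton, forall_eq_or_imp, forall_eq] at hfix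
  have hγ : ∀ τ ∈ U, IsOver (τ : Ω ≃+* Ω) (γ τ) := fun τ hτ => hγ₀.1 τ (hUU hτ)
  have ht : ∀ τ ∈ U, T.act 2 (γ τ) t = ((T.cyc τ)⁻¹ : Lˣ) • t := fun τ hτ => ht₀ τ (hUU hτ)
  have hfin : (⊤ : IntermediateField Ω K).FG := by
    rw [← hK]
    exact fg_adjoin_of_finite (Set.toFinite _)
  have : FiniteDimensional L (T.H 2 K) := T.fin 2 K hfin
  have : NeZero (n : Ω) := ⟨hn'⟩
  obtain ⟨ζ, hζ⟩ : ∃ ζ : Ω, IsPrimitiveRoot ζ n :=
    HasEnoughRootsOfUnity.exists_primitiveRoot Ω n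
  have hK' : adjoin Ω ((adjoin Ω {x, y, z} : Set K) ∪ {w}) = ⊤ := by rw [← gen3 x y z w, hK]
  obtain ⟨σ, hσ⟩ := Pool.Agent.Helper15.QM.Gen.kummer_sigma hn hn' hζ.pow_eq_one
    (adjoin Ω {x, y, z}) w hK' hw hdeg
  have hζF : IsIntegral F ζ := by
    refine ⟨Polynomial.X ^ n - Polynomial.C 1, Polynomial.monic_X_pow_sub_C _ hn.ne', ?_⟩
    rw [Polynomial.eval₂_sub, Polynomial.eval₂_pow, Polynomial.eval₂_X, Polynomial.eval₂_C,
      hζ.pow_eq_one, map_one, sub_self]
  obtain ⟨V, hVU, hV, hVζ⟩ := exists_open U hU ζ hζF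
  have mx : x ∈ adjoin Ω {x, y, z} := subset_adjoin _ _ (by simp)
  have my : y ∈ adjoin Ω {x, y, z} := subset_adjoin _ _ (by simp)
  have mz : z ∈ adjoin Ω {x, y, z} := subset_adjoin _ _ (by simp)
  have hcomm : ∀ (τ : V) (r : T.H 2 K),
      T.act 2 (γ τ) (T.map 2 σ r) = T.map 2 σ (T.act 2 (γ τ) r) := by
    intro τ r
    have hτ := hVU τ.2
    refine T.act_comm 2 {x, y, z, w} hK (τ : Ω ≃+* Ω) (γ τ) (hγ τ hτ) σ ?_ r
    obtain ⟨h1, h2, h3, h4⟩ := hfix τ hτ
    rintro s (rfl | rfl | rfl | rfl)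
    · rw [hσ.1 _ mx, h1, hσ.1 _ mx]
    · rw [hσ.1 _ my, h2, hσ.1 _ my]
    · rw [hσ.1 _ mz, h3, hσ.1 _ mz]
    · rw [hσ.2, map_mul, hγ τ hτ, h4, hσ.2]
      congr 2
      exact hVζ τ τ.2
  obtain ⟨s, ξ, hs0, hs, hξs⟩ := exists_eigen (fun τ : V => T.act 2 (γ τ))
    (fun τ : V => (((T.cyc τ)⁻¹ : Lˣ) : L)) (T.map 2 σ) hcomm t
    (fun τ => ht τ (hVU τ.2)) h0
  have hξn : ξ ^ n = 1 := by
    have h1 : ∀ j : ℕ, (T.map 2 σ ^ j : Module.End L (T.H 2 K)) s = ξ ^ j • s := by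
      intro j
      induction j with
      | zero => simp
      | succ j ih =>
        rw [pow_succ, Module.End.mul_apply, hξs, map_smul, ih, smul_smul, pow_succ, mul_comm]
    have h2 := h1 n
    rw [← tmap_pow75, sigma_order3 hζ.pow_eq_one x y z w hK σ hσ] at h2
    have h3 : T.map 2 (1 : K →ₐ[Ω] K) s = s := LinearMap.congr_fun (T.map_id 2 K) s
    rw [h3] at h2
    have h4 : (ξ ^ n - 1) • s = 0 := by
      rw [sub_smul, ← h2, one_smul, sub_self]
    exact sub_eq_zero.1 ((smul_eq_zero.1 h4).resolve_right hs0)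
  have hform : IsForm V γ := by
    refine isForm_of_gens (fun τ hτ => hγ τ (hVU hτ)) {x, y, z, w} hK fun τ hτ k hk => ?_
    obtain ⟨h1, h2, h3, h4⟩ := hfix τ (hVU hτ)
    rcases hk with rfl | rfl | rfl | rfl
    · exact h1
    · exact h2
    · exact h3
    · exact h4
  have halg3 : ∀ k : K, IsAlgebraic (adjoin Ω {x, y, z}) k := by
    intro k
    have : FiniteDimensional (adjoin Ω {x, y, z}) K :=
      Module.finite_of_finrank_pos (by rw [hdeg]; exact hn)
    exact Algebra.IsAlgebraic.isAlgebraic k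
  have halgF : ∀ k : K, k ∈ Acl Ω {x, y} := alg3 hn hz hK hw
  by_cases hξ2 : ξ ^ α = 1 ∨ ξ ^ β = 1 ∨ ξ ^ (α + β) = 1
  · obtain ⟨d, m, hdm, hξd, hDm⟩ := hD ξ hξn hξ2
    obtain ⟨s', hs'⟩ := desc3 T.toBaseTheory hn hn' hdm hζ x y z w hK hw0 hw
      σ hσ ξ hξd s hξs
    refine hs0 (zero_of_range T (Pool.Agent.Helper75.WC.fg_sub (Set.toFinite _)) hDm _ ?_ V
      hV γ hform s (fun τ hτ => hs ⟨τ, hτ⟩) s' hs')
    intro k
    rw [fieldRange_val]
    have h1 : adjoin Ω {x, y, z} ≤ adjoin Ω {x, y, z, w ^ m} := by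
      rw [adjoin_le_iff]
      rintro c (rfl | rfl | rfl)
      · exact subset_adjoin _ _ (by simp)
      · exact subset_adjoin _ _ (by simp)
      · exact subset_adjoin _ _ (by simp)
    have h2 : IsAlgebraic (adjoin Ω {x, y, z}) k := halg3 k
    let _ : Algebra (adjoin Ω {x, y, z}) (adjoin Ω {x, y, z, w ^ m}) :=
      (inclusion h1).toRingHom.toAlgebra
    have : IsScalarTower (adjoin Ω {x, y, z}) (adjoin Ω {x, y, z, w ^ m}) K :=
      .of_algebraMap_eq fun _ => rfl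
    exact h2.tower_top _
  push Not at hξ2
  have hξ0 : ξ ≠ 0 := by
    rintro rfl
    rw [zero_pow hn.ne'] at hξn
    exact zero_ne_one hξn
  obtain ⟨C, N, iC, jC, iN, jN, v, u, a, b, hv, hu, hC, hbv, hN, hsig, -, hpsi⟩ :=
    exists_curve_ab (Ω := Ω) (α := α) (β := β) hn hαβ K
  obtain ⟨σ', hσ'⟩ := hsig ζ hζ.pow_eq_one
  choose γ' hγ' using fun τ : Ω ≃ₐ[F] Ω => hpsi (τ : Ω ≃+* Ω)
  have hfinC : (⊤ : IntermediateField Ω C).FG := by
    rw [← hC]
    exact fg_adjoin_of_finite (Set.toFinite _)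
  obtain ⟨z', hz0, hz'⟩ := T.curve C n α β ζ v u σ' hn' hζ hv hu hC hσ'.1 hσ'.2 ξ⁻¹
    (by rw [inv_pow, hξn, inv_one]) (by
      intro h
      rw [inv_pow, inv_eq_one] at h
      exact hξ2.1 h) (by
      intro h
      rw [inv_pow, inv_eq_one] at h
      exact hξ2.2.1 h) (by
      intro h
      rw [inv_pow, inv_eq_one] at h
      exact hξ2.2.2 h)
  have huni' : ∀ z : T.H 3 (adjoin Ω (a '' (adjoin Ω {x, y, z} : Set K) ∪ {b v, b u / a w}) :
      IntermediateField Ω N), z = 0 := by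
    apply T.uniruled
    rw [img3]
    refine huni N a (b v) (b u / a w) hbv ?_
    have h2 : b u ^ n = b v ^ α * (1 - b v) ^ β := by
      rw [← map_pow, hu, map_mul, map_pow, map_pow, map_sub, map_one]
    have h3 : a w ≠ 0 := fun h => hw0 (a.injective (h.trans (map_zero a).symm))
    rw [div_pow, h2, div_mul_cancel₀ _ (pow_ne_zero _ h3)]
  refine hs0 (T.eq_zero_of_cup a b x y v V γ γ' hfin hfinC halgF ?_ hbv hV hform ?_ s
    (fun τ hτ => hs ⟨τ, hτ⟩) z' hz0 ?_)
  · intro k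
    rw [← mem_AF]
    have h1 : adjoin Ω {v, u} ≤ AF Ω {v} := by
      rw [adjoin_le_iff]
      have hvm : v ∈ AF Ω {v} := subset_AF _ (by simp)
      rintro k (rfl | rfl)
      · exact hvm
      · apply AF_root hn
        rw [hu]
        exact mul_mem (pow_mem hvm _) (pow_mem (sub_mem (one_mem _) hvm) _)
    apply h1
    rw [hC]
    exact mem_top
  · refine isForm_of_gens (fun τ _ => (hγ' τ).1) {v, u} hC fun τ _ k hk => ?_
    rcases hk with rfl | rfl
    · exact (hγ' τ).2.1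
    · exact (hγ' τ).2.2
  · refine Pool.Agent.Helper15.QM.Gen.cross_zero T.toBaseTheory hn hn' hζ a b
      (adjoin Ω {x, y, z}) w v u hK' hC ?_ hw0 hw σ hσ σ' hσ' huni' ξ hξ0 s hξs z' hz'
    exact hN

variable {F Ω L : Type} [Field F] [Field Ω] [Algebra F Ω] [Algebra.IsAlgebraic F Ω]
    [IsAlgClosed Ω] [Field L] [CharZero L] [IsAlgClosed L] (T : GaloisTheory F Ω L)

theorem noTate_rows3 {K : Type} [Field K] [Algebra Ω K] (R : IntermediateField Ω K)
    (hR : (⊤ : IntermediateField Ω R).FG) [FiniteDimensional R K] [IsGalois R K]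
    (hab : ∀ g h : K ≃ₐ[R] K, g * h = h * g)
    (H : ∀ M : IntermediateField R K, IsCyclic (M ≃ₐ[R] M) → NoTate T M ∨ Row3 Ω R M) :
    NoTate T K ∧ (⊤ : IntermediateField Ω K).FG := by
  classical
  have hfg : ∀ M : IntermediateField R K, (⊤ : IntermediateField Ω M).FG := by
    intro M
    have h1 := Pool.Agent.Helper48.WC.fg_top_of_fg (Pool.Agent.Helper48.WC.fg_restrict R
      (Pool.Agent.Helper48.WC.fg_of_fg_top hR) M)
    exact h1
  refine noTate_of_cyclic T R hab fun M hc => ⟨?_, hfg M⟩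
  obtain ⟨k, hk⟩ : ∃ k, k = Module.finrank R M := ⟨_, rfl⟩
  induction k using Nat.strong_induction_on generalizing M with
  | _ k IH =>
  rcases H M hc with h | ⟨n, α, β, x, y, z, w, hn0, hnΩ, hαβ, hα, hβ, hαβ', hz, hRle, hK, hdeg,
    hw0, hwn, huni⟩
  · exact h
  have hGM : IsGalois R M := isGalois_of_comm hab M
  refine tame3 T α β hαβ hn0 hnΩ x y z w hz hK hw0 hwn hdeg huni ?_
  intro ξ hξn hξ
  obtain ⟨d, hd⟩ : ∃ d, d = orderOf ξ := ⟨_, rfl⟩
  have hdn : d ∣ n := by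
    rw [hd]
    exact orderOf_dvd_of_pow_eq_one hξn
  obtain ⟨m, hm⟩ := hdn
  have hne : d ≠ n := by
    rintro rfl
    rcases hξ with h | h | h
    · exact hα (hd ▸ orderOf_dvd_of_pow_eq_one h)
    · exact hβ (hd ▸ orderOf_dvd_of_pow_eq_one h)
    · exact hαβ' (hd ▸ orderOf_dvd_of_pow_eq_one h)
  have hd0 : 0 < d := Nat.pos_of_ne_zero (by
    rintro rfl
    rw [zero_mul] at hm
    omega)
  have hm0 : 0 < m := Nat.pos_of_ne_zero (by
    rintro rfl
    rw [mul_zero] at hm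
    omega)
  have hdlt : d < n := lt_of_le_of_ne (by
    rw [hm]
    exact Nat.le_mul_of_pos_right _ hm0) hne
  refine ⟨d, m, hm, by rw [hd]; exact pow_orderOf_eq_one ξ, ?_⟩
  obtain ⟨P, hP⟩ : ∃ P : IntermediateField Ω M, P = adjoin Ω {x, y, z} := ⟨_, rfl⟩
  obtain ⟨N, hN⟩ : ∃ N : IntermediateField Ω M, N = adjoin Ω {x, y, z, w ^ m} := ⟨_, rfl⟩
  have hPN : P ≤ N := by
    rw [hP, hN]
    exact adjoin.mono Ω _ _ (by
      rintro a (rfl | rfl | rfl)
      · simp
      · simp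
      · simp)
  -- the field `N` as an extension of `R`
  let M' : IntermediateField R M :=
    { N.toSubfield with
      algebraMap_mem' := fun r => hPN (hP ▸ hRle r) }
  have hcM' : IsCyclic (M' ≃ₐ[R] M') := cyclic_sub hc M'
  let e : M' ≃ₐ[R] lift M' := liftAlgEquiv M'
  have hcL : IsCyclic (lift M' ≃ₐ[R] lift M') :=
    (MulEquiv.isCyclic (AlgEquiv.autCongr e)).1 hcM'
  -- `M'` is a proper subfield
  have hlt : M' ≠ ⊤ := by
    intro htop
    have hNtop : N = ⊤ := by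
      rw [eq_top_iff]
      intro a _
      have h1 : a ∈ M' := by
        rw [htop]
        exact mem_top
      exact h1
    -- the degree of `N` over `P` is at most `d`
    have hfinP : FiniteDimensional P M := Module.finite_of_finrank_pos (by
      rw [hP, hdeg]
      exact hn0)
    obtain ⟨Q, hQ⟩ : ∃ Q : IntermediateField P M, Q = adjoin P {w ^ m} := ⟨_, rfl⟩
    have hQtop : Q = ⊤ := by
      rw [eq_top_iff]
      intro a _
      have h1 : N ≤ Q.restrictScalars Ω := by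
        rw [hN, adjoin_le_iff]
        have hx : x ∈ P := by
          rw [hP]
          exact subset_adjoin _ _ (by simp)
        have hy : y ∈ P := by
          rw [hP]
          exact subset_adjoin _ _ (by simp)
        have hz' : z ∈ P := by
          rw [hP]
          exact subset_adjoin _ _ (by simp)
        rintro b (rfl | rfl | rfl | rfl)
        · exact Q.algebraMap_mem (⟨_, hx⟩ : P)
        · exact Q.algebraMap_mem (⟨_, hy⟩ : P)
        · exact Q.algebraMap_mem (⟨_, hz'⟩ : P)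
        · show w ^ m ∈ Q
          rw [hQ]
          exact subset_adjoin _ _ rfl
      exact h1 (by
        rw [hNtop]
        exact mem_top)
    have h2 : Module.finrank P Q ≤ d := by
      rw [hQ, adjoin.finrank (Algebra.IsIntegral.isIntegral _)]
      have hwP : w ^ n ∈ P := by
        rw [hP]
        exact hwn
      have h3 : minpoly P (w ^ m) ∣ Polynomial.X ^ d - Polynomial.C (⟨w ^ n, hwP⟩ : P) := by
        refine minpoly.dvd P _ ?_
        rw [map_sub, map_pow, Polynomial.aeval_X, Polynomial.aeval_C]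
        show (w ^ m) ^ d - w ^ n = 0
        rw [← pow_mul, mul_comm m, ← hm, sub_self]
      have h4 := Polynomial.natDegree_le_of_dvd h3 (Polynomial.X_pow_sub_C_ne_zero hd0 _)
      rwa [Polynomial.natDegree_X_pow_sub_C] at h4
    have h5 : Module.finrank P Q = n := by
      rw [hQtop, finrank_top', ← hdeg, hP]
    omega
  have hfin : Module.finrank R (lift M') < k := by
    rw [← e.toLinearEquiv.finrank_eq, hk]
    have h1 : M' < ⊤ := lt_top_iff_ne_top.2 hlt
    have h2 : Module.finrank R M' < Module.finrank R (⊤ : IntermediateField R M) := by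
      by_contra h3
      rw [not_lt] at h3
      exact h1.ne (IntermediateField.eq_of_le_of_finrank_le h1.le h3)
    rwa [finrank_top'] at h2
  have h1 := IH _ hfin (lift M') hcL rfl
  have hmem1 : ∀ a ∈ (adjoin Ω {x, y, z, w ^ m} : IntermediateField Ω M), a ∈ M' := by
    intro a ha
    show a ∈ N
    rw [hN]
    exact ha
  let ι : (adjoin Ω {x, y, z, w ^ m} : IntermediateField Ω M) →ₐ[Ω] lift M' :=
    { toFun := fun a => e ⟨a.1, hmem1 a.1 a.2⟩
      map_one' := rfl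
      map_mul' := fun _ _ => rfl
      map_zero' := rfl
      map_add' := fun _ _ => rfl
      commutes' := fun _ => rfl }
  refine NoTate.of_hom T h1 (hfg _) (Pool.Agent.Helper75.WC.fg_sub (Set.toFinite _)) ι ?_
  intro a
  obtain ⟨b, hb⟩ := e.surjective a
  have hb' : b.1 ∈ (adjoin Ω {x, y, z, w ^ m} : IntermediateField Ω M) := by
    have h2 : b.1 ∈ N := b.2
    rwa [hN] at h2
  exact isAlgebraic_algebraMap (⟨a, ⟨b.1, hb'⟩, hb⟩ : ι.fieldRange)

/-- **The whole list.** -/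
theorem of_lstN {R M : Type} [Field R] [Field M] [Algebra Ω R]
    [Algebra Ω M] [Algebra R M] [IsScalarTower Ω R M] [FiniteDimensional R M] [IsGalois R M]
    (h : LstN Ω R M) : NoTate T M ∨ Row3 Ω R M := by
  rcases h with h | h
  · rcases of_lstM T h with h | h
    · exact Or.inl h
    · exact Or.inr (Row3.of_rowDataM h)
  · exact Or.inr h

end Pool.Agent.Helper35.V7
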