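import Pool.Agent.Helper75.WC.RowU

/-! Project V7: quadratic equations over the space with weights, without any condition on the
leading coefficient, in every characteristic. -/

set_option autoImplicit false

namespace Pool.Agent.Helper35.V7

open IntermediateField Pool.Agent.Helper75.QC Pool.Agent.Helper40.SD

/-- dependent elements and one more -/
theorem uni_dep_add {Ω N : Type} [Field Ω] [Field N] [Algebra Ω N] (x : Option (Fin 2) → N)
    (hx : ¬ AlgebraicIndependent Ω x) (u : N) (S : Set N)
    (hS : ∀ a ∈ S, a ∈ adjoin Ω (Set.range x ∪ {u})) :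
    Uniruled Ω (adjoin Ω S : IntermediateField Ω N) 3 := by
  classical
  obtain ⟨s, hs, hmax⟩ : ∃ s : Set (Option (Fin 2)), AlgebraicIndepOn Ω x s ∧
      ∀ i, i ∉ s → IsAlgebraic (Algebra.adjoin Ω (x '' s)) (x i) := by
    have hfin : {s : Set (Option (Fin 2)) | AlgebraicIndepOn Ω x s}.Finite := Set.toFinite _
    have hne : {s : Set (Option (Fin 2)) | AlgebraicIndepOn Ω x s}.Nonempty := by
      refine ⟨∅, ?_⟩
      change AlgebraicIndependent Ω fun i : (∅ : Set (Option (Fin 2))) => x i
      rw [algebraicIndependent_empty_type_iff]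
      exact (algebraMap Ω N).injective
    obtain ⟨s, hs⟩ := hfin.exists_maximal hne
    refine ⟨s, hs.1, fun i hi => ?_⟩
    by_contra h
    have h1 : AlgebraicIndepOn Ω x (insert i s) := AlgebraicIndepOn.insert hs.1 h
    exact hi (hs.2 h1 (Set.subset_insert i s) (Set.mem_insert i s))
  have hsne : s ≠ Set.univ := by
    rintro rfl
    exact hx ((algebraicIndependent_equiv (Equiv.Set.univ _)).1 hs)
  refine ⟨N, inferInstance, inferInstance, (adjoin Ω S).val, (Finset.univ.filter (· ∈ s)).image x,
    u, ?_, fun k => ?_⟩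
  · refine Finset.card_image_le.trans_lt ?_
    have h1 : Finset.univ.filter (· ∈ s) ≠ (Finset.univ : Finset (Option (Fin 2))) := by
      intro h
      apply hsne
      ext i
      constructor
      · exact fun _ => trivial
      · intro _
        have := h ▸ Finset.mem_univ i
        exact (Finset.mem_filter.1 this).2
    have h2 := Finset.card_lt_card (Finset.ssubset_univ_iff.2 h1)
    simpa using h2
  · have e2 : (((Finset.univ.filter (· ∈ s)).image x : Finset N) : Set N) = x '' s := by
      ext a
      simp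
    rw [e2]
    have h1 : adjoin Ω S ≤ adjoin Ω (Acl Ω (x '' s) ∪ {u}) := by
      rw [adjoin_le_iff]
      intro a ha
      have h2 : adjoin Ω (Set.range x ∪ {u}) ≤ adjoin Ω (Acl Ω (x '' s) ∪ {u}) := by
        rw [adjoin_le_iff]
        rintro b (⟨i, rfl⟩ | rfl)
        · by_cases hi : i ∈ s
          · exact subset_adjoin _ _ (Or.inl (mem_AF.1 (subset_AF _ ⟨i, hi, rfl⟩)))
          · exact subset_adjoin _ _ (Or.inl (isAlgebraic_adjoin_iff.2 (hmax i hi)))
        · exact subset_adjoin _ _ (Or.inr rfl)
      exact h2 (hS a ha)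
    exact h1 k.2

/-- rational threefolds -/
theorem uni_rat3 {Ω N : Type} [Field Ω] [Field N] [Algebra Ω N] (x : Option (Fin 2) → N)
    (S : Set N) (hS : ∀ a ∈ S, a ∈ adjoin Ω (Set.range x)) :
    Uniruled Ω (adjoin Ω S : IntermediateField Ω N) 3 := by
  classical
  refine ⟨N, inferInstance, inferInstance, (adjoin Ω S).val,
    Finset.univ.image fun i => x (some i), x none, ?_, fun k => ?_⟩
  · refine (Finset.card_image_le).trans_lt ?_
    simp
  · have h1 : adjoin Ω S ≤ adjoin Ω
        (Acl Ω ((Finset.univ.image fun i => x (some i) : Finset N) : Set N) ∪ {x none}) := by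
      rw [adjoin_le_iff]
      intro a ha
      have h2 : adjoin Ω (Set.range x) ≤ adjoin Ω
          (Acl Ω ((Finset.univ.image fun i => x (some i) : Finset N) : Set N) ∪ {x none}) := by
        rw [adjoin_le_iff]
        rintro _ ⟨i, rfl⟩
        rcases i with _ | i
        · exact subset_adjoin _ _ (Or.inr rfl)
        · exact subset_adjoin _ _ (Or.inl (mem_AF.1 (subset_AF _ (by simp))))
      exact h2 (hS a ha)
    exact h1 k.2

/-- square roots in characteristic two -/
theorem uni_insep {Ω N : Type} [Field Ω] [IsAlgClosed Ω] [Field N] [Algebra Ω N]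
    (h2 : (2 : Ω) = 0) (x : Option (Fin 2) → N) (B : MvPolynomial (Option (Fin 2)) Ω) (r : N)
    (hr : r ^ 2 = MvPolynomial.aeval x B) (S : Set N)
    (hS : ∀ a ∈ S, a ∈ adjoin Ω (Set.range x ∪ {r})) :
    Uniruled Ω (adjoin Ω S : IntermediateField Ω N) 3 := by
  classical
  let E := AlgebraicClosure N
  let ι : N →ₐ[Ω] E := IsScalarTower.toAlgHom Ω N E
  have h2E : (2 : E) = 0 := by
    have := congrArg (algebraMap Ω E) h2
    rwa [map_ofNat, map_zero] at this
  obtain ⟨θ, hθ⟩ : ∃ θ : E, θ ^ 2 = ι (x none) := IsAlgClosed.exists_pow_nat_eq _ (by norm_num)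
  set T : Finset E := Finset.univ.image fun i => ι (x (some i)) with hT
  set F : IntermediateField Ω E := adjoin Ω (Acl Ω (T : Set E) ∪ {θ}) with hF
  have hsq : ∀ f : MvPolynomial (Option (Fin 2)) Ω, ∃ g ∈ F, g ^ 2 =
      MvPolynomial.aeval (fun i => ι (x i)) f := by
    intro f
    induction f using MvPolynomial.induction_on with
    | C c =>
      obtain ⟨d, hd⟩ := IsAlgClosed.exists_pow_nat_eq c (n := 2) (by norm_num)
      refine ⟨algebraMap Ω E d, F.algebraMap_mem d, ?_⟩
      rw [← map_pow, hd, MvPolynomial.aeval_C]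
    | add f g hf hg =>
      obtain ⟨a, ha, ha2⟩ := hf
      obtain ⟨b, hb, hb2⟩ := hg
      refine ⟨a + b, F.add_mem ha hb, ?_⟩
      rw [map_add, ← ha2, ← hb2]
      linear_combination a * b * h2E
    | mul_X f i hf =>
      obtain ⟨a, ha, ha2⟩ := hf
      obtain ⟨b, hb, hb2⟩ : ∃ b ∈ F, b ^ 2 = ι (x i) := by
        rcases i with _ | i
        · exact ⟨θ, subset_adjoin _ _ (Or.inr rfl), hθ⟩
        · obtain ⟨b, hb⟩ := IsAlgClosed.exists_pow_nat_eq (ι (x (some i))) (n := 2) (by norm_num)
          refine ⟨b, subset_adjoin _ _ (Or.inl ?_), hb⟩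
          refine mem_AF.1 (AF_root (n := 2) (by norm_num) ?_)
          rw [hb]
          exact subset_AF _ (by simp [hT])
      refine ⟨a * b, F.mul_mem ha hb, ?_⟩
      rw [map_mul, MvPolynomial.aeval_X, mul_pow, ha2, hb2]
  refine ⟨E, inferInstance, inferInstance, ι.comp (adjoin Ω S).val, T, θ, ?_, fun k => ?_⟩
  · refine (Finset.card_image_le).trans_lt ?_
    simp
  · have h1 : adjoin Ω S ≤ F.comap ι := by
      rw [adjoin_le_iff]
      intro a ha
      have h3 : adjoin Ω (Set.range x ∪ {r}) ≤ F.comap ι := by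
        rw [adjoin_le_iff]
        rintro b (⟨i, rfl⟩ | rfl)
        · obtain ⟨g, hg, hg2⟩ := hsq (MvPolynomial.X i)
          rw [MvPolynomial.aeval_X] at hg2
          change ι (x i) ∈ F
          rw [← hg2]
          exact pow_mem hg 2
        · obtain ⟨g, hg, hg2⟩ := hsq B
          have h4 : MvPolynomial.aeval (fun i => ι (x i)) B = ι (MvPolynomial.aeval x B) := by
            have h5 : ι.comp (MvPolynomial.aeval x) =
                MvPolynomial.aeval (R := Ω) (fun i => ι (x i)) := by
              ext i
              simp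
            exact (DFunLike.congr_fun h5 B).symm
          rw [h4, ← hr, map_pow] at hg2
          have h6 : (ι b - g) ^ 2 = 0 := by
            linear_combination (ι b ^ 2 - ι b * g) * h2E + hg2
          have h7 : ι b = g := sub_eq_zero.1 (pow_eq_zero_iff (by norm_num) |>.1 h6)
          change ι b ∈ F
          rw [h7]
          exact hg
      exact h3 (hS a ha)
    exact h1 k.2

/-- **The threefolds `A u ^ 2 + B u + C = 0`.** -/
theorem uni_quad3 {Ω N : Type} [Field Ω] [IsAlgClosed Ω] [Field N] [Algebra Ω N]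
    (w : Option (Fin 2) → ℕ) (hW : 0 < ∑ i, w i) (A B C : MvPolynomial (Option (Fin 2)) Ω)
    (h0 : A ≠ 0 ∨ B ≠ 0 ∨ C ≠ 0) (hB : WD w (∑ i, w i) B) (hC : WD w (2 * ∑ i, w i) (A * C))
    (x : Option (Fin 2) → N) (u : N)
    (hu : MvPolynomial.aeval x A * u ^ 2 + MvPolynomial.aeval x B * u + MvPolynomial.aeval x C = 0)
    (S : Set N) (hS : ∀ a ∈ S, a ∈ adjoin Ω (Set.range x ∪ {u})) :
    Uniruled Ω (adjoin Ω S : IntermediateField Ω N) 3 := by
  have hdep : ∀ F : MvPolynomial (Option (Fin 2)) Ω, F ≠ 0 → MvPolynomial.aeval x F = 0 →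
      Uniruled Ω (adjoin Ω S : IntermediateField Ω N) 3 := by
    intro F hF hF0
    refine uni_dep_add x (fun h => hF ?_) u S hS
    exact h (hF0.trans (map_zero _).symm)
  have hmem : ∀ (F : MvPolynomial (Option (Fin 2)) Ω) (K : IntermediateField Ω N),
      (∀ i, x i ∈ K) → MvPolynomial.aeval x F ∈ K := by
    intro F K hK
    induction F using MvPolynomial.induction_on with
    | C c =>
      rw [MvPolynomial.aeval_C]
      exact K.algebraMap_mem c
    | add f g hf hg =>
      rw [map_add]
      exact K.add_mem hf hg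
    | mul_X f i hf =>
      rw [map_mul, MvPolynomial.aeval_X]
      exact K.mul_mem hf (hK i)
  by_cases hA : MvPolynomial.aeval x A = 0
  · by_cases hA0 : A = 0
    · rw [hA, zero_mul, zero_add] at hu
      by_cases hB' : MvPolynomial.aeval x B = 0
      · rw [hB', zero_mul, zero_add] at hu
        rcases h0 with h | h | h
        · exact absurd hA0 h
        · exact hdep B h hB'
        · exact hdep C h hu
      · refine uni_rat3 x S fun a ha => ?_
        have h1 : adjoin Ω (Set.range x ∪ {u}) ≤ adjoin Ω (Set.range x) := by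
          rw [adjoin_le_iff]
          rintro b (hb | rfl)
          · exact subset_adjoin _ _ hb
          · have h2 : b = -MvPolynomial.aeval x C / MvPolynomial.aeval x B := by
              rw [eq_div_iff hB']
              linear_combination hu
            have h3 : ∀ i, x i ∈ adjoin Ω (Set.range x) := fun i => subset_adjoin _ _ ⟨i, rfl⟩
            rw [h2]
            exact div_mem (neg_mem (hmem C _ h3)) (hmem B _ h3)
        exact h1 (hS a ha)
    · exact hdep A hA0 hA
  · have hr : (MvPolynomial.aeval x A * u) ^ 2 =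
        MvPolynomial.aeval x (-B) * (MvPolynomial.aeval x A * u) +
          MvPolynomial.aeval x (-(A * C)) := by
      rw [map_neg, map_neg, map_mul]
      linear_combination MvPolynomial.aeval x A * hu
    have hS' : ∀ a ∈ S, a ∈ adjoin Ω (Set.range x ∪ {MvPolynomial.aeval x A * u}) := by
      intro a ha
      have h1 : adjoin Ω (Set.range x ∪ {u}) ≤
          adjoin Ω (Set.range x ∪ {MvPolynomial.aeval x A * u}) := by
        rw [adjoin_le_iff]
        rintro b (hb | rfl)
        · exact subset_adjoin _ _ (Or.inl hb)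
        · have h2 : b = MvPolynomial.aeval x A * b / MvPolynomial.aeval x A := by
            rw [mul_div_cancel_left₀ _ hA]
          obtain ⟨F, hF⟩ : ∃ F : IntermediateField Ω N,
              F = adjoin Ω (Set.range x ∪ {MvPolynomial.aeval x A * b}) := ⟨_, rfl⟩
          have m1 : MvPolynomial.aeval x A * b ∈ F := by
            rw [hF]
            exact subset_adjoin _ _ (Or.inr rfl)
          have m2 : MvPolynomial.aeval x A ∈ F := hmem A _ fun i => by
            rw [hF]
            exact subset_adjoin _ _ (Or.inl ⟨i, rfl⟩)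
          rw [← hF, h2]
          exact F.div_mem m1 m2
      exact h1 (hS a ha)
    by_cases h2 : (2 : Ω) ≠ 0 ∨ -B ≠ 0
    · exact uni_in_quad (k := 2) w hW (-B) (-(A * C)) h2 hB.neg hC.neg x _ hr S hS'
    · push Not at h2
      refine uni_insep h2.1 x (-(A * C)) _ ?_ S hS'
      rw [hr, h2.2, map_zero, zero_mul, zero_add]

end Pool.Agent.Helper35.V7
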